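import Pool.Agent.NH26.LR.Dist

/-!
# Sums of an odd distribution against Dirichlet characters
-/

set_option autoImplicit false

open Finset DirichletCharacter

namespace Pool.Agent.NH26.LR

/-- The sum over the residues prime to `q` of the values of `h`, weighted by a character. -/
noncomputable def T (h : ℚ → ℂ) (q : ℕ) {m : ℕ} (ψ : DirichletCharacter ℂ m) : ℂ :=
  ∑ a ∈ range q, (if Nat.Coprime a q then ψ (a : ZMod m) else 0) * h (a / q)

theorem sum_mul_range {M : Type*} [AddCommMonoid M] {q p : ℕ} (hq : 0 < q) (G : ℕ → M) :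
    ∑ a ∈ range (q * p), G a = ∑ b ∈ range q, ∑ j ∈ range p, G (b + q * j) := by
  rw [← sum_product']
  refine sum_nbij' (fun a => (a % q, a / q)) (fun x => x.1 + q * x.2) ?_ ?_ ?_ ?_ ?_
  · intro a ha
    rw [mem_range] at ha
    rw [mem_product, mem_range, mem_range]
    exact ⟨Nat.mod_lt _ hq, Nat.div_lt_of_lt_mul ha⟩
  · rintro ⟨b, j⟩ hx
    rw [mem_product, mem_range, mem_range] at hx
    rw [mem_range]
    have h1 : b < q := hx.1
    have h2 : j + 1 ≤ p := hx.2
    calc b + q * j < q + q * j := by omega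
      _ = q * (j + 1) := by ring
      _ ≤ q * p := Nat.mul_le_mul_left _ h2
  · intro a _
    exact Nat.mod_add_div a q
  · rintro ⟨b, j⟩ hx
    rw [mem_product, mem_range, mem_range] at hx
    have h1 : b < q := hx.1
    simp only [Nat.add_mul_mod_self_left, Nat.mod_eq_of_lt h1, Prod.mk.injEq, true_and]
    rw [Nat.add_mul_div_left _ _ hq, Nat.div_eq_of_lt h1, zero_add]
  · intro a _
    show G a = G (a % q + q * (a / q))
    rw [Nat.mod_add_div]

theorem coprime_mul_prime {a q p : ℕ} (hp : p.Prime) :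
    Nat.Coprime a (q * p) ↔ Nat.Coprime a q ∧ ¬ p ∣ a := by
  rw [Nat.coprime_mul_iff_right, Nat.coprime_comm (n := a) (m := p), Nat.Prime.coprime_iff_not_dvd hp]

theorem T_step {h : ℚ → ℂ} (hh : IsOD h) {m q p : ℕ} (hm : m ∣ q) (hq : 0 < q) (hp : p.Prime)
    (ψ : DirichletCharacter ℂ m) :
    T h (q * p) ψ = (1 - if p ∣ q then 0 else ψ (p : ZMod m)) * T h q ψ := by
  classical
  have hqq : (q : ℚ) ≠ 0 := by exact_mod_cast hq.ne'
  have hpq : (p : ℚ) ≠ 0 := by exact_mod_cast hp.ne_zero
  set F : ℕ → ℂ := fun a => if Nat.Coprime a q then ψ (a : ZMod m) else 0 with hF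
  have hFper : ∀ b j, F (b + q * j) = F b := by
    intro b j
    obtain ⟨c, rfl⟩ := hm
    have h1 : Nat.Coprime (b + m * c * j) (m * c) ↔ Nat.Coprime b (m * c) := by
      rw [Nat.coprime_add_mul_left_left]
    have h2 : ((b + m * c * j : ℕ) : ZMod m) = (b : ZMod m) := by
      push_cast
      rw [ZMod.natCast_self]
      ring
    simp only [hF, h1, h2]
  have hFmul : ∀ b, F (p * b) = (if p ∣ q then 0 else ψ (p : ZMod m)) * F b := by
    intro b
    simp only [hF]
    by_cases hpd : p ∣ q
    · rw [if_pos hpd, zero_mul, if_neg]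
      intro hc
      exact hp.one_lt.ne' (Nat.eq_one_of_dvd_coprimes hc (Dvd.intro _ rfl) hpd)
    · have hcp : Nat.Coprime p q := (Nat.Prime.coprime_iff_not_dvd hp).2 hpd
      rw [if_neg hpd]
      by_cases hc : Nat.Coprime b q
      · rw [if_pos hc, if_pos (Nat.Coprime.mul_left hcp hc), Nat.cast_mul, map_mul]
      · rw [if_neg hc, mul_zero, if_neg]
        intro hc'
        exact hc (Nat.Coprime.coprime_mul_left hc')
  have h1 : T h (q * p) ψ = ∑ a ∈ range (q * p), F a * h (a / (q * p : ℕ)) -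
      ∑ a ∈ range (q * p), (if p ∣ a then F a * h (a / (q * p : ℕ)) else 0) := by
    unfold T
    rw [← sum_sub_distrib]
    refine sum_congr rfl fun a _ => ?_
    simp only [coprime_mul_prime hp, hF]
    by_cases h1 : Nat.Coprime a q <;> by_cases h2 : p ∣ a <;> simp [h1, h2]
  have h2 : ∑ a ∈ range (q * p), F a * h (a / (q * p : ℕ)) = T h q ψ := by
    rw [sum_mul_range hq]
    unfold T
    refine sum_congr rfl fun b _ => ?_
    have h3 := hh.dist p hp.pos ((b : ℚ) / (q * p : ℕ))
    have e1 : (p : ℚ) * ((b : ℚ) / (q * p : ℕ)) = b / q := by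
      push_cast; field_simp
    rw [e1] at h3
    rw [← h3, mul_sum]
    refine sum_congr rfl fun j _ => ?_
    rw [hFper]
    congr 2
    push_cast
    field_simp
  have h4 : ∑ a ∈ range (q * p), (if p ∣ a then F a * h (a / (q * p : ℕ)) else 0) =
      (if p ∣ q then 0 else ψ (p : ZMod m)) * T h q ψ := by
    rw [← sum_filter]
    unfold T
    rw [mul_sum]
    symm
    refine sum_nbij' (fun b => p * b) (fun a => a / p) ?_ ?_ ?_ ?_ ?_
    · intro b hb
      rw [mem_range] at hb
      rw [mem_filter, mem_range]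
      refine ⟨?_, Dvd.intro _ rfl⟩
      rw [mul_comm q p]
      exact Nat.mul_lt_mul_of_pos_left hb hp.pos
    · intro a ha
      rw [mem_filter, mem_range] at ha
      rw [mem_range]
      exact Nat.div_lt_of_lt_mul (by rw [mul_comm]; exact ha.1)
    · intro b _
      exact Nat.mul_div_cancel_left _ hp.pos
    · intro a ha
      rw [mem_filter] at ha
      exact Nat.mul_div_cancel' ha.2
    · intro b _
      rw [hFmul, mul_assoc]
      congr 3
      push_cast
      field_simp
  rw [h1, h2, h4]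
  ring

theorem T_prod {h : ℚ → ℂ} (hh : IsOD h) {m : ℕ} (hm : 0 < m) (ψ : DirichletCharacter ℂ m) (n : ℕ)
    (hn : 0 < n) : T h (m * n) ψ = (∏ p ∈ (m * n).primeFactors, (1 - ψ (p : ZMod m))) * T h m ψ := by
  have hz : ∀ p ∈ m.primeFactors, 1 - ψ (p : ZMod m) = 1 := by
    intro p hp
    have hp' := Nat.mem_primeFactors.1 hp
    have : ψ (p : ZMod m) = 0 := by
      apply ψ.map_nonunit
      rw [ZMod.isUnit_iff_coprime]
      intro hc
      exact hp'.1.one_lt.ne' (Nat.eq_one_of_dvd_coprimes hc (dvd_refl _) hp'.2.1)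
    rw [this, sub_zero]
  revert hn
  induction n using induction_on_primes with
  | zero => intro hn; exact absurd hn (lt_irrefl 0)
  | one => intro _; rw [mul_one, prod_congr rfl hz, prod_const_one, one_mul]
  | prime_mul p a hp ih =>
    intro hn
    have ha : 0 < a := Nat.pos_of_ne_zero (fun h => by rw [h] at hn; simp at hn)
    have hma : 0 < m * a := Nat.mul_pos hm ha
    rw [show m * (p * a) = m * a * p from by ring, T_step hh (dvd_mul_right m a) hma hp, ih ha,
      ← mul_assoc]
    congr 1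
    rw [Nat.primeFactors_mul hma.ne' hp.ne_zero, hp.primeFactors]
    by_cases hpm : p ∣ m * a
    · rw [if_pos hpm, sub_zero, one_mul, union_eq_left.2 (by
        rw [singleton_subset_iff, Nat.mem_primeFactors]; exact ⟨hp, hpm, hma.ne'⟩)]
    · rw [if_neg hpm, union_comm, ← insert_eq, prod_insert (by
        intro h; exact hpm (Nat.mem_primeFactors.1 h).2.1)]

/-- The sum of the values of `h` at the fractions with denominator `q`, weighted by `χ`. -/
noncomputable def S (h : ℚ → ℂ) {q : ℕ} (χ : DirichletCharacter ℂ q) : ℂ :=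
  ∑ a ∈ range q, χ (a : ZMod q) * h (a / q)

/-- The corresponding sum for the primitive character. -/
noncomputable def P (h : ℚ → ℂ) {q : ℕ} (χ : DirichletCharacter ℂ q) : ℂ :=
  T h χ.conductor χ.primitiveCharacter

/-- The Euler factor. -/
noncomputable def E {q : ℕ} (χ : DirichletCharacter ℂ q) : ℂ :=
  ∏ p ∈ q.primeFactors, (1 - χ.primitiveCharacter (p : ZMod χ.conductor))

theorem S_eq {h : ℚ → ℂ} (hh : IsOD h) {q : ℕ} [NeZero q] (χ : DirichletCharacter ℂ q) :
    S h χ = E χ * P h χ := by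
  have h1 : S h χ = T h q χ.primitiveCharacter := by
    unfold S T
    refine sum_congr rfl fun a _ => ?_
    congr 1
    split_ifs with hc
    · have := primitiveCharacter_apply_of_isCoprime χ (a := (a : ℤ)) (Nat.isCoprime_iff_coprime.2 hc)
      push_cast at this
      exact this.symm
    · apply χ.map_nonunit
      rw [ZMod.isUnit_iff_coprime]
      exact hc
  obtain ⟨c, hc⟩ := χ.conductor_dvd_level
  have hq : 0 < q := Nat.pos_of_ne_zero (NeZero.ne q)
  have hf : 0 < χ.conductor := Nat.pos_of_ne_zero (fun h => by rw [h, zero_mul] at hc; omega)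
  have hcp : 0 < c := Nat.pos_of_ne_zero (fun h => by rw [h, mul_zero] at hc; omega)
  have h2 := T_prod hh hf χ.primitiveCharacter c hcp
  rw [← hc] at h2
  rw [h1, h2]
  rfl

theorem S_even {h : ℚ → ℂ} (hh : IsOD h) {q : ℕ} [NeZero q] {χ : DirichletCharacter ℂ q}
    (hχ : χ.Even) : S h χ = 0 := by
  have hqq : (q : ℚ) ≠ 0 := by exact_mod_cast NeZero.ne q
  have h1 := sum_odd (F := fun m : ℤ => χ ((m : ℤ) : ZMod q) * h ((m : ℚ) / q)) (n := q) (by
      intro m
      show χ (((m + q : ℤ)) : ZMod q) * h (((m + q : ℤ) : ℚ) / q) = χ ((m : ℤ) : ZMod q) * h ((m : ℚ) / q)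
      have e3 : h (((m + q : ℤ) : ℚ) / q) = h ((m : ℚ) / q) := by
        rw [← hh.per ((m : ℚ) / q)]
        congr 1
        push_cast
        field_simp
      have e4 : χ (((m + q : ℤ)) : ZMod q) = χ ((m : ℤ) : ZMod q) := by push_cast; simp
      rw [e3, e4]) (by
      intro m
      show χ (((-m : ℤ)) : ZMod q) * h (((-m : ℤ) : ℚ) / q) = -(χ ((m : ℤ) : ZMod q) * h ((m : ℚ) / q))
      have e1 : χ (((-m : ℤ)) : ZMod q) = χ ((m : ℤ) : ZMod q) := by
        rw [Int.cast_neg, ← neg_one_mul, map_mul, hχ, one_mul]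
      have e2 : h (((-m : ℤ) : ℚ) / q) = - h ((m : ℚ) / q) := by
        rw [← hh.odd]; congr 1; push_cast; ring
      rw [e1, e2, mul_neg])
  unfold S
  rw [← h1]
  refine sum_congr rfl fun a _ => ?_
  push_cast
  rfl

end Pool.Agent.NH26.LR
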