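import Pool.Agent.NH26.LR.Rank

/-!
# When is there a bad odd character?
-/

set_option autoImplicit false

open Finset DirichletCharacter

namespace Pool.Agent.NH26.LR

/-- For every prime `p` dividing `q`, a power of `p` is congruent to `-1` modulo the largest divisor of
`q` prime to `p`. -/
def MinusOne (q : ℕ) : Prop :=
  ∀ p : ℕ, p.Prime → p ∣ q → ∃ k : ℕ, q / p ^ padicValNat p q ∣ p ^ k + 1

theorem minusOne_of_not_bad {q : ℕ} [NeZero q]
    (h : ∀ χ : DirichletCharacter ℂ q, χ.Odd → ¬ Bad χ) : MinusOne q := by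
  intro p hp hpq
  have : Fact p.Prime := ⟨hp⟩
  by_contra hk
  push Not at hk
  set m : ℕ := q / p ^ padicValNat p q with hm
  have hq0 : q ≠ 0 := NeZero.ne q
  have hfac : p ^ padicValNat p q ∣ q := pow_padicValNat_dvd
  have hmq : m ∣ q := Nat.div_dvd_of_dvd hfac
  have hm0 : m ≠ 0 := fun h => hq0 (Nat.eq_zero_of_zero_dvd (h ▸ hmq))
  have : NeZero m := ⟨hm0⟩
  have hcop : Nat.Coprime p m := by
    have := Nat.coprime_ordCompl hp hq0
    rwa [Nat.factorization_def q hp] at this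
  let u : (ZMod m)ˣ := ZMod.unitOfCoprime p hcop
  -- `-1` is not a power of `p`
  have hnot : (-1 : (ZMod m)ˣ) ∉ Subgroup.zpowers u := by
    intro hmem
    rw [← mem_powers_iff_mem_zpowers] at hmem
    obtain ⟨k, hk'⟩ := hmem
    apply hk k
    rw [← ZMod.natCast_eq_zero_iff]
    have h1 := congrArg (Units.val) hk'
    simp only [Units.val_pow_eq_pow_val, Units.val_neg, Units.val_one] at h1
    have h2 : ((u : (ZMod m)ˣ) : ZMod m) = (p : ZMod m) := ZMod.coe_unitOfCoprime p hcop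
    rw [h2] at h1
    push_cast
    rw [h1]
    ring
  have hne : (QuotientGroup.mk (-1 : (ZMod m)ˣ) : (ZMod m)ˣ ⧸ Subgroup.zpowers u) ≠ 1 := by
    rwa [Ne, QuotientGroup.eq_one_iff]
  have : NeZero (Monoid.exponent ((ZMod m)ˣ ⧸ Subgroup.zpowers u)) :=
    ⟨by
      have h1 : (Nat.card ((ZMod m)ˣ ⧸ Subgroup.zpowers u)) ≠ 0 := Nat.card_pos.ne'
      intro h0
      exact h1 (Nat.eq_zero_of_zero_dvd (h0 ▸ Group.exponent_dvd_nat_card))⟩
  obtain ⟨φ, hφ⟩ := CommGroup.exists_apply_ne_one_of_hasEnoughRootsOfUnity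
    ((ZMod m)ˣ ⧸ Subgroup.zpowers u) ℂ hne
  let ψ : DirichletCharacter ℂ m :=
    MulChar.ofUnitHom (φ.comp (QuotientGroup.mk' (Subgroup.zpowers u)))
  have hψu : ∀ v : (ZMod m)ˣ, ψ (v : ZMod m) = ((φ (QuotientGroup.mk v) : ℂˣ) : ℂ) := fun v => by
    simp [ψ]
  have hψp : ψ (p : ZMod m) = 1 := by
    have h2 : ((u : (ZMod m)ˣ) : ZMod m) = (p : ZMod m) := ZMod.coe_unitOfCoprime p hcop
    rw [← h2, hψu, (QuotientGroup.eq_one_iff u).2 (Subgroup.mem_zpowers u), map_one, Units.val_one]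
  have hψ1 : ψ (-1) ≠ 1 := by
    have h2 : (((-1 : (ZMod m)ˣ)) : ZMod m) = -1 := by simp
    rw [← h2, hψu]
    intro h
    exact hφ (Units.ext h)
  have hψodd : ψ.Odd := (even_or_odd ψ).resolve_left hψ1
  refine h (changeLevel hmq ψ) ?_ ⟨p, hp, hpq, ?_⟩
  · have h3 := changeLevel_eq_cast_of_dvd' ψ hmq (a := -1) (isCoprime_one_left.neg_left)
    push_cast at h3
    show changeLevel hmq ψ (-1) = -1
    rw [h3]
    exact hψodd
  · have h3 := primitiveCharacter_changeLevel_apply hmq ψ (p : ℤ)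
    have h4 := primitiveCharacter_apply_of_isCoprime ψ (a := (p : ℤ)) (Nat.isCoprime_iff_coprime.2 hcop)
    push_cast at h3 h4
    rw [h3, h4, hψp]

theorem not_bad_of_minusOne {q : ℕ} [NeZero q] (h : MinusOne q) (χ : DirichletCharacter ℂ q)
    (hχ : χ.Odd) : ¬ Bad χ := by
  rintro ⟨p, hp, hpq, h1⟩
  obtain ⟨k, hk⟩ := h p hp hpq
  have hq0 : q ≠ 0 := NeZero.ne q
  have hf : χ.conductor ∣ q := χ.conductor_dvd_level
  have hcop : Nat.Coprime p χ.conductor := by
    rw [← ZMod.isUnit_iff_coprime]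
    by_contra hn
    rw [MulChar.map_nonunit _ hn] at h1
    exact zero_ne_one h1
  have hfac : p ^ padicValNat p q ∣ q := by
    have : Fact p.Prime := ⟨hp⟩
    exact pow_padicValNat_dvd
  have hfm : χ.conductor ∣ q / p ^ padicValNat p q := by
    have h2 : χ.conductor ∣ p ^ padicValNat p q * (q / p ^ padicValNat p q) := by
      rw [Nat.mul_div_cancel' hfac]; exact hf
    exact (Nat.Coprime.pow_right _ hcop.symm).dvd_of_dvd_mul_left h2
  have h3 : ((p ^ k + 1 : ℕ) : ZMod χ.conductor) = 0 := by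
    rw [ZMod.natCast_eq_zero_iff]
    exact hfm.trans hk
  have h4 : (p : ZMod χ.conductor) ^ k = -1 := by
    push_cast at h3
    linear_combination h3
  have h5 := congrArg χ.primitiveCharacter h4
  rw [map_pow, h1, one_pow, prim_neg_one] at h5
  have h6 : χ (-1) = -1 := hχ
  rw [h6] at h5
  norm_num at h5

end Pool.Agent.NH26.LR
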