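import Pool.Agent.NH26.LR.Crit
import Pool.Agent.H374R2.CofC

/-!
# The condition `MinusOne` holds only on a set of density zero
-/

set_option autoImplicit false

open Finset

namespace Pool.Agent.NH26.LR

open Pool.Agent.H374R2.Cof

theorem not_minusOne {q p r : ℕ} (hp : p.Prime) (hp2 : 2 < p) (hpq : p ∣ q)
    (hr : r.Prime) (hrp : r ≡ 1 [MOD p]) (hrq : r ∣ q) : ¬ MinusOne q := by
  intro h
  have : Fact r.Prime := ⟨hr⟩
  obtain ⟨k, hk⟩ := h r hr hrq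
  have hfac : r ^ padicValNat r q ∣ q := pow_padicValNat_dvd
  have hne : p ≠ r := by
    rintro rfl
    have h1 : p ∣ 1 := (Nat.modEq_zero_iff_dvd.1 (hrp.symm.trans (Nat.modEq_zero_iff_dvd.2 (dvd_refl p))))
    exact hp.one_lt.ne' (Nat.dvd_one.1 h1)
  have hcop : Nat.Coprime p (r ^ padicValNat r q) :=
    Nat.Coprime.pow_right _ ((Nat.coprime_primes hp hr).2 hne)
  have h1 : p ∣ q / r ^ padicValNat r q := by
    have h2 : p ∣ r ^ padicValNat r q * (q / r ^ padicValNat r q) := by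
      rw [Nat.mul_div_cancel' hfac]; exact hpq
    exact hcop.dvd_of_dvd_mul_left h2
  have h3 : r ^ k + 1 ≡ 2 [MOD p] := by
    have := (hrp.pow k).add_right 1
    rwa [one_pow] at this
  have h4 : p ∣ 2 := Nat.modEq_zero_iff_dvd.1 (h3.symm.trans (Nat.modEq_zero_iff_dvd.2 (h1.trans hk)))
  exact absurd (Nat.le_of_dvd (by norm_num) h4) (by omega)

theorem natNull_minusOne : NatNull {q | MinusOne q} := by
  intro ε hε
  obtain ⟨F, hF, hsum⟩ := exists_primes_class 4 (by norm_num) 3 (by norm_num) (-Real.log (ε / 4))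
  set R : ℝ := ∏ p ∈ F, (({x : ZMod p | x ≠ 0}.ncard : ℕ) : ℝ) with hR
  set M : ℝ := ∏ p ∈ F, (p : ℝ) with hM
  have hR0 : 0 ≤ R := Finset.prod_nonneg (fun _ _ => by positivity)
  have hM0 : 0 < M := Finset.prod_pos (fun p hp => by exact_mod_cast (hF p hp).1.pos)
  have hRM : R / M ≤ ε / 4 := by
    have h1 := prod_le_exp F (fun p hp => (hF p hp).1)
    calc R / M ≤ _ := h1
      _ ≤ Real.exp (Real.log (ε / 4)) := Real.exp_le_exp.mpr (by linarith)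
      _ = ε / 4 := Real.exp_log (by positivity)
  obtain ⟨N₀, hN₀⟩ := exists_nat_ge (R / (ε / 4))
  have hB : NatNull (⋃ p ∈ F, {C | ∀ r : ℕ, r.Prime → r ≡ 1 [MOD p] → ¬ r ∣ C}) :=
    natNull_biUnion F _ (fun p hp => natNull_avoid p (hF p hp).1.pos 1 (Nat.coprime_one_left p))
  obtain ⟨N₁, hN₁⟩ := hB (ε / 2) (by positivity)
  refine ⟨max N₀ N₁, fun N hN => ?_⟩
  have hNa : N₀ ≤ N := (le_max_left _ _).trans hN
  have hNb : N₁ ≤ N := (le_max_right _ _).trans hN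
  have h1 := count1 F (fun p hp => (hF p hp).1) (fun p => {x : ZMod p | x ≠ 0})
    {C | ∀ p ∈ F, ¬ p ∣ C} (by
      intro m hm p hp
      have := hm p hp
      show (m : ZMod p) ≠ 0
      rwa [Ne, ZMod.natCast_eq_zero_iff]) N
  have h2 : (({C | ∀ p ∈ F, ¬ p ∣ C} ∩ Set.Ioc 0 N).ncard : ℝ) ≤ R * ((N : ℝ) / M + 1) := by
    calc _ ≤ (((∏ p ∈ F, {x : ZMod p | x ≠ 0}.ncard) * (N / (∏ p ∈ F, p) + 1) : ℕ) : ℝ) := by
          exact_mod_cast h1
      _ = R * (((N / (∏ p ∈ F, p) : ℕ) : ℝ) + 1) := by rw [hR]; push_cast; ring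
      _ ≤ _ := by
        apply mul_le_mul_of_nonneg_left _ hR0
        have h3 : ((N / (∏ p ∈ F, p) : ℕ) : ℝ) ≤ (N : ℝ) / ((∏ p ∈ F, p : ℕ) : ℝ) := Nat.cast_div_le
        push_cast at h3
        linarith
  have h3 : R ≤ (ε / 4) * N := by
    have h4 : R / (ε / 4) ≤ N := hN₀.trans (by exact_mod_cast hNa)
    rwa [div_le_iff₀ (by positivity), mul_comm] at h4
  have h4 : (({C | ∀ p ∈ F, ¬ p ∣ C} ∩ Set.Ioc 0 N).ncard : ℝ) ≤ ε / 2 * N := by
    calc _ ≤ R * ((N : ℝ) / M + 1) := h2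
      _ = (R / M) * N + R := by field_simp
      _ ≤ (ε / 4) * N + (ε / 4) * N := by
        have : (R / M) * N ≤ (ε / 4) * N := mul_le_mul_of_nonneg_right hRM (by positivity)
        linarith
      _ = ε / 2 * N := by ring
  have h5 := hN₁ N hNb
  have h6 : {q | MinusOne q} ∩ Set.Ioc 0 N ⊆ ({C | ∀ p ∈ F, ¬ p ∣ C} ∩ Set.Ioc 0 N) ∪
      ((⋃ p ∈ F, {C | ∀ r : ℕ, r.Prime → r ≡ 1 [MOD p] → ¬ r ∣ C}) ∩ Set.Ioc 0 N) := by
    rintro q ⟨hq, hqN⟩
    by_cases hA : ∀ p ∈ F, ¬ p ∣ q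
    · exact Or.inl ⟨hA, hqN⟩
    · right
      push Not at hA
      obtain ⟨p, hp, hpq⟩ := hA
      refine ⟨Set.mem_biUnion hp ?_, hqN⟩
      intro r hr hrp hrq
      refine not_minusOne (hF p hp).1 ?_ hpq hr hrp hrq hq
      have h7 := (hF p hp).2
      have h8 := (hF p hp).1.two_le
      rcases Nat.lt_or_ge 2 p with h9 | h9
      · exact h9
      · have h10 : p = 2 := by omega
        rw [h10] at h7
        exact absurd h7 (by decide)
  have h7 : ((({q | MinusOne q} ∩ Set.Ioc 0 N).ncard : ℕ) : ℝ) ≤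
      ({C | ∀ p ∈ F, ¬ p ∣ C} ∩ Set.Ioc 0 N).ncard +
      ((⋃ p ∈ F, {C | ∀ r : ℕ, r.Prime → r ≡ 1 [MOD p] → ¬ r ∣ C}) ∩ Set.Ioc 0 N).ncard := by
    have h8 := (Set.ncard_le_ncard h6 (((Set.finite_Ioc 0 N).subset Set.inter_subset_right).union
      ((Set.finite_Ioc 0 N).subset Set.inter_subset_right))).trans (Set.ncard_union_le _ _)
    exact_mod_cast h8
  calc _ ≤ _ := h7
    _ ≤ ε / 2 * N + ε / 2 * N := add_le_add h4 h5
    _ = ε * N := by ring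

end Pool.Agent.NH26.LR
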