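import Mathlib

/-!
# The multiplication formula of Gauss, up to the value of the constant
-/

set_option autoImplicit false

open Real Set Finset

namespace Pool.Agent.NH26.LR

/-- The constant in the multiplication formula. -/
noncomputable def gc (n : ℕ) : ℝ := ∏ j ∈ range n, Gamma ((1 + j) / n)

/-- The right hand side of the multiplication formula. -/
noncomputable def gm (n : ℕ) (s : ℝ) : ℝ :=
  (n : ℝ) ^ (s - 1) * (∏ j ∈ range n, Gamma ((s + j) / n)) / gc n

theorem gc_pos {n : ℕ} (hn : 0 < n) : 0 < gc n := by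
  unfold gc
  refine prod_pos fun j _ => Gamma_pos_of_pos ?_
  have : (0 : ℝ) < n := by exact_mod_cast hn
  positivity

theorem gp_pos {n : ℕ} (hn : 0 < n) {s : ℝ} (hs : 0 < s) : 0 < ∏ j ∈ range n, Gamma ((s + j) / n) := by
  refine prod_pos fun j _ => Gamma_pos_of_pos ?_
  have : (0 : ℝ) < n := by exact_mod_cast hn
  positivity

theorem gm_pos {n : ℕ} (hn : 0 < n) {s : ℝ} (hs : 0 < s) : 0 < gm n s := by
  have : (0 : ℝ) < n := by exact_mod_cast hn
  unfold gm
  have := gc_pos hn
  have := gp_pos hn hs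
  positivity

theorem gm_one {n : ℕ} (hn : 0 < n) : gm n 1 = 1 := by
  have := (gc_pos hn).ne'
  unfold gm
  rw [sub_self, rpow_zero, one_mul]
  exact div_self this

theorem gp_add_one {n : ℕ} (hn : 0 < n) {s : ℝ} (hs : 0 < s) :
    ∏ j ∈ range n, Gamma ((s + 1 + j) / n) = s / n * ∏ j ∈ range n, Gamma ((s + j) / n) := by
  have hn' : (0 : ℝ) < n := by exact_mod_cast hn
  have h1 := prod_range_succ (fun j : ℕ => Gamma ((s + j) / n)) n
  have h2 := prod_range_succ' (fun j : ℕ => Gamma ((s + j) / n)) n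
  have h3 : Gamma ((s + n) / n) = s / n * Gamma (s / n) := by
    rw [add_div, div_self hn'.ne', Gamma_add_one (div_pos hs hn').ne']
  have h4 : ∏ j ∈ range n, Gamma ((s + 1 + j) / n) = ∏ j ∈ range n, Gamma ((s + ((j + 1 : ℕ) : ℝ)) / n) := by
    refine prod_congr rfl fun j _ => ?_
    push_cast
    rw [add_assoc, add_comm (1 : ℝ)]
  have h5 : 0 < Gamma (s / n) := Gamma_pos_of_pos (div_pos hs hn')
  rw [h4]
  rw [h1, Nat.cast_zero, add_zero] at h2
  rw [h3] at h2
  have := mul_right_cancel₀ h5.ne' (a := (∏ j ∈ range n, Gamma ((s + j) / n)) * (s / n))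
    (c := ∏ j ∈ range n, Gamma ((s + ((j + 1 : ℕ) : ℝ)) / n)) (by rw [← h2]; ring)
  rw [← this]
  ring

theorem gm_add_one {n : ℕ} (hn : 0 < n) {s : ℝ} (hs : 0 < s) : gm n (s + 1) = s * gm n s := by
  have hn' : (0 : ℝ) < n := by exact_mod_cast hn
  unfold gm
  rw [gp_add_one hn hs, show s + 1 - 1 = (s - 1) + 1 from by ring, rpow_add hn', rpow_one]
  field_simp

theorem log_gm {n : ℕ} (hn : 0 < n) : EqOn (fun s => ∑ j ∈ range n, log (Gamma ((s + j) / n)) +
    (s * log n + (- log n - log (gc n)))) (log ∘ gm n) (Ioi 0) := by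
  intro s hs
  have hs' : 0 < s := hs
  have hn' : (0 : ℝ) < n := by exact_mod_cast hn
  have hj : ∀ j ∈ range n, Gamma ((s + j) / n) ≠ 0 := fun j _ =>
    (Gamma_pos_of_pos (by positivity)).ne'
  simp only [Function.comp_apply]
  unfold gm
  rw [log_div (mul_pos (rpow_pos_of_pos hn' _) (gp_pos hn hs')).ne' (gc_pos hn).ne',
    log_mul (rpow_pos_of_pos hn' _).ne' (gp_pos hn hs').ne', log_prod hj, log_rpow hn']
  ring

theorem gm_convex {n : ℕ} (hn : 0 < n) : ConvexOn ℝ (Ioi (0 : ℝ)) (log ∘ gm n) := by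
  have hn' : (0 : ℝ) < n := by exact_mod_cast hn
  refine ConvexOn.congr ?_ (log_gm hn)
  refine ConvexOn.add ?_ ?_
  · have : ∀ t : Finset ℕ, ConvexOn ℝ (Ioi (0 : ℝ)) (fun s => ∑ j ∈ t, log (Gamma ((s + j) / n))) := by
      intro t
      classical
      induction t using Finset.induction_on with
      | empty => simpa using convexOn_const (0 : ℝ) (convex_Ioi (0 : ℝ))
      | insert a t ha ih =>
        simp only [sum_insert ha]
        refine ConvexOn.add ?_ ih
        refine ⟨convex_Ioi _, ?_⟩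
        intro x hx y hy u v hu hv huv
        have hx' : (0 : ℝ) < x := hx
        have hy' : (0 : ℝ) < y := hy
        have h := convexOn_log_Gamma.2 (x := (x + a) / n) (show (0 : ℝ) < _ by positivity)
          (y := (y + a) / n) (show (0 : ℝ) < _ by positivity) hu hv huv
        have e : (u • x + v • y + (a : ℝ)) / n = u • ((x + a) / n) + v • ((y + a) / n) := by
          simp only [smul_eq_mul]
          field_simp
          linear_combination (-(a : ℝ)) * huv
        show log (Gamma ((u • x + v • y + (a : ℝ)) / n)) ≤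
          u • log (Gamma ((x + a) / n)) + v • log (Gamma ((y + a) / n))
        rw [e]
        exact h
    exact this _
  · refine ⟨convex_Ioi _, ?_⟩
    intro x _ y _ u v _ _ huv
    simp only [smul_eq_mul]
    apply le_of_eq
    linear_combination (-(-log (n : ℝ) - log (gc n))) * huv

/-- The multiplication formula. -/
theorem gauss_mult {n : ℕ} (hn : 0 < n) {s : ℝ} (hs : 0 < s) : gm n s = Gamma s :=
  eq_Gamma_of_log_convex (gm_convex hn) (fun {_} hy => gm_add_one hn hy)
    (fun {_} hy => gm_pos hn hy) (gm_one hn) hs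

/-- The multiplication formula, solved for the product. -/
theorem gauss_prod {n : ℕ} (hn : 0 < n) {s : ℝ} (hs : 0 < s) :
    ∏ j ∈ range n, Gamma ((s + j) / n) = (n : ℝ) ^ (1 - s) * gc n * Gamma s := by
  have hn' : (0 : ℝ) < n := by exact_mod_cast hn
  rw [← gauss_mult hn hs]
  unfold gm
  have h1 := (gc_pos hn).ne'
  have h2 : (n : ℝ) ^ (1 - s) * (n : ℝ) ^ (s - 1) = 1 := by
    rw [← rpow_add hn']; simp
  field_simp
  rw [h2]

/-- The square of the constant. -/
theorem gc_sq {n : ℕ} (hn : 0 < n) :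
    gc n ^ 2 = π ^ (n - 1) / ∏ j ∈ range (n - 1), sin (π * ((1 + j) / n)) := by
  have hn' : (0 : ℝ) < n := by exact_mod_cast hn
  obtain ⟨m, rfl⟩ : ∃ m, n = m + 1 := ⟨n - 1, by omega⟩
  have h1 : gc (m + 1) = ∏ j ∈ range m, Gamma ((1 + j) / (m + 1 : ℕ)) := by
    unfold gc
    rw [prod_range_succ, show ((1 : ℝ) + (m : ℝ)) / ((m + 1 : ℕ) : ℝ) = 1 from by
      rw [add_comm]; push_cast; rw [div_self (by positivity)], Gamma_one, mul_one]
  have h2 : gc (m + 1) = ∏ j ∈ range m, Gamma (1 - (1 + j) / (m + 1 : ℕ)) := by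
    rw [h1, ← prod_range_reflect]
    refine prod_congr rfl fun j hj => ?_
    rw [Finset.mem_range] at hj
    congr 1
    have : ((m - 1 - j : ℕ) : ℝ) = (m : ℝ) - 1 - j := by
      rw [Nat.cast_sub (by omega), Nat.cast_sub (by omega)]; simp
    rw [this]
    push_cast
    field_simp
    ring
  rw [sq]
  nth_rewrite 1 [h1]
  rw [h2, ← prod_mul_distrib, Nat.add_sub_cancel]
  have h3 : ∀ j ∈ range m, Gamma ((1 + j) / (m + 1 : ℕ)) * Gamma (1 - (1 + j) / (m + 1 : ℕ)) =
      π / sin (π * ((1 + j) / (m + 1 : ℕ))) := fun j _ => Gamma_mul_Gamma_one_sub _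
  rw [prod_congr rfl h3, prod_div_distrib, prod_const, card_range]

end Pool.Agent.NH26.LR
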