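import Pool.Agent.NH26.LR.Log
import Pool.Agent.NH26.LR.Mult

/-!
# The odd distribution given by the Gamma function
-/

set_option autoImplicit false

open Finset

namespace Pool.Agent.NH26.LR

/-- Odd distributions on `ℚ / ℤ`. -/
structure IsOD {V : Type*} [AddCommGroup V] (g : ℚ → V) : Prop where
  per : ∀ x, g (x + 1) = g x
  odd : ∀ x, g (-x) = -g x
  dist : ∀ n : ℕ, 0 < n → ∀ x, ∑ j ∈ range n, g (x + j / n) = g (n * x)

theorem per_nat {V : Type*} {g : ℚ → V} (h : ∀ x, g (x + 1) = g x) (x : ℚ) (n : ℕ) :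
    g (x + n) = g x := by
  induction n with
  | zero => simp
  | succ n ih => rw [Nat.cast_succ, ← add_assoc, h, ih]

theorem per_int {V : Type*} {g : ℚ → V} (h : ∀ x, g (x + 1) = g x) (x : ℚ) (n : ℤ) :
    g (x + n) = g x := by
  rcases Int.eq_nat_or_neg n with ⟨k, rfl | rfl⟩
  · exact_mod_cast per_nat h x k
  · have := per_nat h (x + ((-(k : ℤ) : ℤ) : ℚ)) k
    rw [← this]
    congr 1
    push_cast
    ring

theorem sum_period {V : Type*} [AddCommGroup V] {F : ℤ → V} {n : ℕ} (hF : ∀ m, F (m + n) = F m)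
    (k : ℤ) : ∑ j ∈ range n, F (k + j) = ∑ j ∈ range n, F j := by
  have step : ∀ k : ℤ, ∑ j ∈ range n, F (k + 1 + j) = ∑ j ∈ range n, F (k + j) := by
    intro k
    have h1 := sum_range_succ (fun j : ℕ => F (k + j)) n
    have h2 := sum_range_succ' (fun j : ℕ => F (k + j)) n
    rw [hF] at h1
    rw [Nat.cast_zero, add_zero] at h2
    rw [h1] at h2
    have h3 := add_right_cancel h2
    rw [h3]
    refine sum_congr rfl fun j _ => ?_
    push_cast
    rw [add_assoc, add_comm (1 : ℤ)]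
  induction k using Int.induction_on with
  | zero => simp
  | succ i ih => rw [step, ih]
  | pred i ih =>
    rw [← ih, ← step (-(i : ℤ) - 1)]
    refine sum_congr rfl fun j _ => ?_
    congr 1
    ring

theorem sum_odd {V : Type*} [AddCommGroup V] [Module ℚ V] {F : ℤ → V} {n : ℕ}
    (hF : ∀ m, F (m + n) = F m) (ho : ∀ m, F (-m) = -F m) : ∑ j ∈ range n, F j = 0 := by
  have h1 : ∑ j ∈ range n, F (-(j : ℤ)) = - ∑ j ∈ range n, F j := by
    rw [← sum_neg_distrib]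
    exact sum_congr rfl fun j _ => ho _
  have h2 : ∑ j ∈ range n, F (-(j : ℤ)) = ∑ j ∈ range n, F j := by
    rw [← sum_period hF (1 - n), ← sum_range_reflect]
    refine sum_congr rfl fun j hj => ?_
    rw [mem_range] at hj
    congr 1
    omega
  have h3 : (2 : ℚ) • ∑ j ∈ range n, F j = 0 := by
    rw [two_smul]
    nth_rewrite 1 [← h2]
    rw [h1, neg_add_cancel]
  exact (smul_eq_zero.1 h3).resolve_left (by norm_num)

/-- `x` is an integer. -/
def IsI (x : ℚ) : Prop := ∃ k : ℤ, x = k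

theorem isI_add_one {x : ℚ} : IsI (x + 1) ↔ IsI x := by
  constructor
  · rintro ⟨k, hk⟩; exact ⟨k - 1, by push_cast; linarith⟩
  · rintro ⟨k, hk⟩; exact ⟨k + 1, by push_cast; linarith⟩

theorem isI_neg {x : ℚ} : IsI (-x) ↔ IsI x := by
  constructor
  · rintro ⟨k, hk⟩; exact ⟨-k, by push_cast; linarith⟩
  · rintro ⟨k, hk⟩; exact ⟨-k, by push_cast; linarith⟩

open Classical in
/-- The class of `Γ(x) / √π`, and `0` for integral `x`. -/
noncomputable def gg (x : ℚ) : Mq :=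
  if IsI x then 0 else cls (Complex.Gamma x) - (1 / 2 : ℚ) • cls (Real.pi : ℂ)

theorem gam_ne {x : ℚ} (hx : ¬ IsI x) : Complex.Gamma (x : ℂ) ≠ 0 := by
  apply Complex.Gamma_ne_zero
  intro m hm
  apply hx
  refine ⟨-m, ?_⟩
  have : (x : ℂ) = ((-(m : ℤ) : ℤ) : ℂ) := by rw [hm]; push_cast; rfl
  exact_mod_cast this

theorem ne_zero_of {x : ℚ} (hx : ¬ IsI x) : x ≠ 0 := fun h => hx ⟨0, by rw [h]; simp⟩

theorem alg_rat (x : ℚ) : IsAlgebraic ℚ (x : ℂ) := by
  have := isAlgebraic_algebraMap (R := ℚ) (A := ℂ) x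
  simpa using this

theorem pi_ne : (Real.pi : ℂ) ≠ 0 := by exact_mod_cast Real.pi_ne_zero

theorem gg_per (x : ℚ) : gg (x + 1) = gg x := by
  unfold gg
  by_cases hx : IsI x
  · rw [if_pos hx, if_pos (isI_add_one.2 hx)]
  · rw [if_neg hx, if_neg (fun h => hx (isI_add_one.1 h))]
    have h0 : (x : ℂ) ≠ 0 := by exact_mod_cast ne_zero_of hx
    have h1 : Complex.Gamma ((x + 1 : ℚ) : ℂ) = x * Complex.Gamma x := by
      rw [← Complex.Gamma_add_one _ h0]
      push_cast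
      rfl
    rw [h1, cls_mul h0 (gam_ne hx), cls_alg h0 (alg_rat x), zero_add]

theorem gg_odd (x : ℚ) : gg (-x) = -gg x := by
  by_cases hx : IsI x
  · unfold gg
    rw [if_pos hx, if_pos (isI_neg.2 hx), neg_zero]
  · have hx' : ¬ IsI (-x) := fun h => hx (isI_neg.1 h)
    have hx1 : ¬ IsI (-x + 1) := fun h => hx' (isI_add_one.1 h)
    rw [← gg_per]
    unfold gg
    rw [if_neg hx, if_neg hx1]
    have h1 : Complex.Gamma (x : ℂ) * Complex.Gamma ((-x + 1 : ℚ) : ℂ) =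
        Real.pi / Complex.sin (Real.pi * x) := by
      rw [← Complex.Gamma_mul_Gamma_one_sub]
      congr 2
      push_cast
      ring
    have hs0 : Complex.sin (Real.pi * (x : ℂ)) ≠ 0 := by
      intro h0
      rw [h0, div_zero] at h1
      exact (mul_ne_zero (gam_ne hx) (gam_ne hx1)) h1
    have hsa : IsAlgebraic ℚ (Complex.sin (Real.pi * (x : ℂ))) := by
      have := Complex.isAlgebraic_sin_rat_mul_pi x
      rw [mul_comm]
      exact (IsFractionRing.isAlgebraic_iff ℤ ℚ ℂ).1 this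
    have h2 := cls_mul (gam_ne hx) (gam_ne hx1)
    rw [h1, div_eq_mul_inv, cls_mul pi_ne (inv_ne_zero hs0), cls_inv hs0, cls_alg hs0 hsa, neg_zero,
      add_zero] at h2
    have h3 : cls (Real.pi : ℂ) = (1 / 2 : ℚ) • cls (Real.pi : ℂ) + (1 / 2 : ℚ) • cls (Real.pi : ℂ) := by
      rw [← add_smul]; norm_num
    rw [neg_sub, sub_eq_sub_iff_add_eq_add, add_comm, ← h2]
    exact h3

theorem rpow_alg {n : ℕ} (hn : 0 < n) (s : ℚ) : IsAlgebraic ℚ (((n : ℝ) ^ (s : ℝ) : ℝ) : ℂ) := by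
  have hn' : (0 : ℝ) < n := by exact_mod_cast hn
  have h1 : ((n : ℝ) ^ (s : ℝ)) ^ s.den = (n : ℝ) ^ s.num := by
    rw [← Real.rpow_natCast, ← Real.rpow_mul hn'.le, ← Real.rpow_intCast]
    congr 1
    have := Rat.mul_den_eq_num s
    exact_mod_cast this
  have h2 : IsAlgebraic ℚ ((((n : ℝ) ^ (s : ℝ) : ℝ) : ℂ) ^ s.den) := by
    have : (((n : ℝ) ^ (s : ℝ) : ℝ) : ℂ) ^ s.den = (((n : ℚ) ^ s.num : ℚ) : ℂ) := by
      rw [← Complex.ofReal_pow, h1]
      push_cast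
      rfl
    rw [this]
    exact alg_rat _
  exact h2.of_pow s.den_pos

theorem two_cls_gc {n : ℕ} (hn : 0 < n) :
    cls ((gc n : ℝ) : ℂ) = (((n : ℚ) - 1) / 2) • cls (Real.pi : ℂ) := by
  have h0 : ((gc n : ℝ) : ℂ) ≠ 0 := by exact_mod_cast (gc_pos hn).ne'
  have h1 := gc_sq hn
  set P : ℝ := ∏ j ∈ range (n - 1), Real.sin (Real.pi * ((1 + j) / n)) with hP
  have hP0 : P ≠ 0 := by
    intro h
    rw [h, div_zero] at h1
    exact (pow_pos (gc_pos hn) 2).ne' h1
  have hPa : IsAlgebraic ℚ (P : ℂ) := by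
    rw [hP, Complex.ofReal_prod]
    refine Finset.prod_induction _ (fun z : ℂ => IsAlgebraic ℚ z) (fun a b ha hb => ha.mul hb)
      isAlgebraic_one (fun j _ => ?_)
    have := Complex.isAlgebraic_sin_rat_mul_pi ((1 + j) / n)
    rw [Complex.ofReal_sin]
    have e : ((Real.pi * ((1 + (j : ℝ)) / n) : ℝ) : ℂ) = (((1 + j) / n : ℚ) : ℂ) * Real.pi := by
      push_cast
      ring
    rw [e]
    exact (IsFractionRing.isAlgebraic_iff ℤ ℚ ℂ).1 this
  have h2 : ((gc n : ℝ) : ℂ) ^ 2 = (Real.pi : ℂ) ^ (n - 1) * (P : ℂ)⁻¹ := by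
    rw [← Complex.ofReal_pow, h1]
    push_cast
    rw [div_eq_mul_inv]
  have hPc : (P : ℂ) ≠ 0 := by exact_mod_cast hP0
  have h3 := congrArg cls h2
  rw [cls_pow h0, cls_mul (pow_ne_zero _ pi_ne) (inv_ne_zero hPc), cls_inv hPc, cls_alg hPc hPa,
    neg_zero, add_zero, cls_pow pi_ne] at h3
  have h4 : (2 : ℚ) • cls ((gc n : ℝ) : ℂ) = ((n : ℚ) - 1) • cls (Real.pi : ℂ) := by
    have e2 : (2 : ℚ) • cls ((gc n : ℝ) : ℂ) = (2 : ℕ) • cls ((gc n : ℝ) : ℂ) := by
      rw [← Nat.cast_smul_eq_nsmul ℚ]; norm_num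
    rw [e2, h3, ← Nat.cast_smul_eq_nsmul ℚ, Nat.cast_sub (by omega)]
    norm_num
  rw [div_eq_inv_mul, mul_smul, ← h4, ← mul_smul]
  norm_num

theorem gg_dist_pos {n : ℕ} (hn : 0 < n) {x : ℚ} (hx : 0 < x) (hi : ¬ IsI (n * x)) :
    ∑ j ∈ range n, gg (x + j / n) = gg (n * x) := by
  have hnq : (0 : ℚ) < n := by exact_mod_cast hn
  have hnr : (0 : ℝ) < n := by exact_mod_cast hn
  have hj : ∀ j : ℕ, ¬ IsI (x + j / n) := by
    rintro j ⟨k, hk⟩
    apply hi
    refine ⟨n * k - j, ?_⟩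
    push_cast
    rw [← hk]
    field_simp
    ring
  have h1 : ∑ j ∈ range n, gg (x + j / n) =
      ∑ j ∈ range n, cls (Complex.Gamma ((x + j / n : ℚ) : ℂ)) - ((n : ℚ) / 2) • cls (Real.pi : ℂ) := by
    have : ∀ j ∈ range n, gg (x + j / n) =
        cls (Complex.Gamma ((x + j / n : ℚ) : ℂ)) - (1 / 2 : ℚ) • cls (Real.pi : ℂ) := by
      intro j _
      unfold gg
      rw [if_neg (hj j)]
    rw [sum_congr rfl this, sum_sub_distrib, sum_const, card_range, ← Nat.cast_smul_eq_nsmul ℚ,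
      ← mul_smul, mul_one_div]
  have hs : (0 : ℝ) < (n : ℝ) * (x : ℝ) := mul_pos hnr (by exact_mod_cast hx)
  have h2 := gauss_prod hn hs
  have h3 : (∏ j ∈ range n, Complex.Gamma ((x + j / n : ℚ) : ℂ)) =
      (((n : ℝ) ^ ((1 - n * x : ℚ) : ℝ) : ℝ) : ℂ) * ((gc n : ℝ) : ℂ) * Complex.Gamma ((n * x : ℚ) : ℂ) := by
    have e1 : ∀ j ∈ range n, Complex.Gamma ((x + j / n : ℚ) : ℂ) =
        ((Real.Gamma (((n : ℝ) * x + j) / n) : ℝ) : ℂ) := by
      intro j _
      have hnc : (n : ℂ) ≠ 0 := by exact_mod_cast hn.ne'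
      rw [← Complex.Gamma_ofReal]
      congr 1
      push_cast
      field_simp
    rw [prod_congr rfl e1, ← Complex.ofReal_prod, h2]
    push_cast
    rw [← Complex.Gamma_ofReal]
    push_cast
    rfl
  have h4 : cls (∏ j ∈ range n, Complex.Gamma ((x + j / n : ℚ) : ℂ)) =
      ∑ j ∈ range n, cls (Complex.Gamma ((x + j / n : ℚ) : ℂ)) :=
    cls_prod _ _ fun j _ => gam_ne (hj j)
  have hpw : (((n : ℝ) ^ ((1 - n * x : ℚ) : ℝ) : ℝ) : ℂ) ≠ 0 := by
    have := (Real.rpow_pos_of_pos hnr ((1 - n * x : ℚ) : ℝ)).ne'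
    exact_mod_cast this
  have hgc : ((gc n : ℝ) : ℂ) ≠ 0 := by exact_mod_cast (gc_pos hn).ne'
  rw [h1, ← h4, h3, cls_mul (mul_ne_zero hpw hgc) (gam_ne hi), cls_mul hpw hgc,
    cls_alg hpw (rpow_alg hn _), zero_add, two_cls_gc hn]
  unfold gg
  rw [if_neg hi]
  have : (((n : ℚ) - 1) / 2) • cls (Real.pi : ℂ) =
      ((n : ℚ) / 2) • cls (Real.pi : ℂ) - (1 / 2 : ℚ) • cls (Real.pi : ℂ) := by
    rw [← sub_smul]
    congr 1
    ring
  rw [this]
  abel

theorem gg_isOD : IsOD gg := by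
  refine ⟨gg_per, gg_odd, ?_⟩
  intro n hn x
  have hnq : (0 : ℚ) < n := by exact_mod_cast hn
  by_cases hi : IsI (n * x)
  · obtain ⟨k, hk⟩ := hi
    have h0 : gg (n * x) = 0 := by unfold gg; rw [if_pos ⟨k, hk⟩]
    rw [h0]
    have hF : ∀ m : ℤ, gg (((m + n : ℤ) : ℚ) / n) = gg ((m : ℚ) / n) := by
      intro m
      have := gg_per ((m : ℚ) / n)
      rw [← this]
      congr 1
      push_cast
      field_simp
    have ho : ∀ m : ℤ, gg (((-m : ℤ) : ℚ) / n) = -gg ((m : ℚ) / n) := by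
      intro m
      rw [← gg_odd]
      congr 1
      push_cast
      ring
    rw [← sum_odd (F := fun m : ℤ => gg ((m : ℚ) / n)) hF ho,
      ← sum_period (F := fun m : ℤ => gg ((m : ℚ) / n)) hF k]
    refine sum_congr rfl fun j _ => ?_
    congr 1
    push_cast
    rw [← hk]
    field_simp
  · obtain ⟨K, hK⟩ := exists_nat_gt (-x)
    have hx : 0 < x + K := by linarith
    have h1 : gg (n * (x + K)) = gg (n * x) := by
      have := per_nat gg_per (n * x) (n * K)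
      rw [← this]
      congr 1
      push_cast
      ring
    have hi' : ¬ IsI (n * (x + K)) := by
      rintro ⟨k, hk⟩
      exact hi ⟨k - n * K, by push_cast; rw [← hk]; ring⟩
    rw [← h1, ← gg_dist_pos hn hx hi']
    refine sum_congr rfl fun j _ => ?_
    have := per_nat gg_per (x + j / n) K
    rw [← this]
    congr 1
    ring

end Pool.Agent.NH26.LR
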