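import Mathlib

/-!
# Complex numbers up to algebraic numbers, as a vector space over the rational numbers

`Lg` is the space of the complex numbers `z` with `exp z` algebraic; `cls w` is the class of `log w`
modulo `Lg`.
-/

set_option autoImplicit false

open Complex Polynomial

namespace Pool.Agent.NH26.LR

/-- The complex numbers whose exponential is algebraic, a subspace over `ℚ`. -/
noncomputable def Lg : Submodule ℚ ℂ where
  carrier := {z | IsAlgebraic ℚ (exp z)}
  add_mem' := by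
    intro a b ha hb
    show IsAlgebraic ℚ (exp (a + b))
    rw [exp_add]
    exact IsAlgebraic.mul ha hb
  zero_mem' := by
    show IsAlgebraic ℚ (exp 0)
    rw [exp_zero]
    exact isAlgebraic_one
  smul_mem' := by
    intro r z hz
    show IsAlgebraic ℚ (exp (r • z))
    have hd : (r.den : ℕ) ≠ 0 := r.den_nz
    have h1 : exp (r • z) ^ r.den = exp z ^ r.num := by
      rw [← exp_nat_mul, ← exp_int_mul]
      congr 1
      rw [Rat.smul_def, ← mul_assoc]
      congr 1
      have := Rat.den_mul_eq_num r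
      exact_mod_cast this
    have h2 : IsAlgebraic ℚ (exp (r • z) ^ r.den) := by
      rw [h1]
      rcases Int.eq_nat_or_neg r.num with ⟨n, hn | hn⟩
      · rw [hn, zpow_natCast]; exact IsAlgebraic.pow hz n
      · rw [hn, zpow_neg, zpow_natCast]; exact (IsAlgebraic.pow hz n).inv
    exact h2.of_pow (Nat.pos_of_ne_zero hd)

theorem mem_Lg {z : ℂ} : z ∈ Lg ↔ IsAlgebraic ℚ (exp z) := Iff.rfl

/-- The space of the complex numbers modulo `Lg`. -/
abbrev Mq : Type := ℂ ⧸ Lg

/-- The class of `log w`. -/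
noncomputable def cls (w : ℂ) : Mq := Lg.mkQ (log w)

theorem cls_exp (z : ℂ) : cls (exp z) = Lg.mkQ z := by
  unfold cls
  rw [← sub_eq_zero, ← map_sub, Submodule.mkQ_apply, Submodule.Quotient.mk_eq_zero, mem_Lg, exp_sub,
    exp_log (exp_ne_zero z), div_self (exp_ne_zero z)]
  exact isAlgebraic_one

theorem cls_mul {u v : ℂ} (hu : u ≠ 0) (hv : v ≠ 0) : cls (u * v) = cls u + cls v := by
  have : u * v = exp (log u + log v) := by rw [exp_add, exp_log hu, exp_log hv]
  rw [this, cls_exp, map_add]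
  rfl

theorem cls_alg {u : ℂ} (hu : u ≠ 0) (h : IsAlgebraic ℚ u) : cls u = 0 := by
  unfold cls
  rw [Submodule.mkQ_apply, Submodule.Quotient.mk_eq_zero, mem_Lg, exp_log hu]
  exact h

theorem cls_inv {u : ℂ} (hu : u ≠ 0) : cls u⁻¹ = - cls u := by
  have := cls_mul hu (inv_ne_zero hu)
  rw [mul_inv_cancel₀ hu, cls_alg one_ne_zero isAlgebraic_one] at this
  exact (neg_eq_of_add_eq_zero_right this.symm).symm

theorem cls_prod {ι : Type*} (s : Finset ι) (f : ι → ℂ) (hf : ∀ i ∈ s, f i ≠ 0) :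
    cls (∏ i ∈ s, f i) = ∑ i ∈ s, cls (f i) := by
  classical
  induction s using Finset.induction_on with
  | empty => simp [cls_alg one_ne_zero isAlgebraic_one]
  | insert a s ha ih =>
    rw [Finset.prod_insert ha, Finset.sum_insert ha, cls_mul, ih]
    · intro i hi; exact hf i (Finset.mem_insert_of_mem hi)
    · exact hf a (Finset.mem_insert_self _ _)
    · rw [Finset.prod_ne_zero_iff]; intro i hi; exact hf i (Finset.mem_insert_of_mem hi)

theorem cls_pow {u : ℂ} (hu : u ≠ 0) (n : ℕ) : cls (u ^ n) = n • cls u := by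
  induction n with
  | zero => simp [cls_alg one_ne_zero isAlgebraic_one]
  | succ n ih => rw [pow_succ, cls_mul (pow_ne_zero _ hu) hu, ih, succ_nsmul]

theorem cls_zpow {u : ℂ} (hu : u ≠ 0) (n : ℤ) : cls (u ^ n) = n • cls u := by
  rcases Int.eq_nat_or_neg n with ⟨k, rfl | rfl⟩
  · rw [zpow_natCast, cls_pow hu, natCast_zsmul]
  · rw [zpow_neg, zpow_natCast, cls_inv (pow_ne_zero _ hu), cls_pow hu, neg_smul, natCast_zsmul]

theorem alg_of_cls {u : ℂ} (hu : u ≠ 0) (h : cls u = 0) : IsAlgebraic ℚ u := by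
  unfold cls at h
  rw [Submodule.mkQ_apply, Submodule.Quotient.mk_eq_zero, mem_Lg, exp_log hu] at h
  exact h

/-- If the class of `w` is a rational combination of the classes of the members of `T`, then `w` is
algebraic over every algebraically closed field containing `T`. -/
theorem mem_of_mem_span {E : IntermediateField ℚ ℂ} (hE : ∀ w : ℂ, IsAlgebraic E w → w ∈ E)
    {T : Set ℂ} (hT : ∀ t ∈ T, t ≠ 0) (hTE : T ⊆ E) {w : ℂ} (hw : w ≠ 0)
    (h : cls w ∈ Submodule.span ℚ (cls '' T)) : w ∈ E := by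
  -- some multiple of `cls w` is an integral combination
  have key : ∀ m ∈ Submodule.span ℚ (cls '' T), ∃ N : ℕ, 0 < N ∧ ∃ v ∈ E, v ≠ 0 ∧ N • m = cls v := by
    intro m hm
    induction hm using Submodule.span_induction with
    | mem x hx =>
      obtain ⟨t, ht, rfl⟩ := hx
      exact ⟨1, one_pos, t, hTE ht, hT t ht, one_smul _ _⟩
    | zero => exact ⟨1, one_pos, 1, one_mem E, one_ne_zero, by
        rw [smul_zero, cls_alg one_ne_zero isAlgebraic_one]⟩
    | add x y _ _ hx hy =>
      obtain ⟨N, hN, v, hv, hv0, h1⟩ := hx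
      obtain ⟨N', hN', v', hv', hv0', h1'⟩ := hy
      refine ⟨N * N', Nat.mul_pos hN hN', v ^ N' * v' ^ N, mul_mem (pow_mem hv _) (pow_mem hv' _),
        mul_ne_zero (pow_ne_zero _ hv0) (pow_ne_zero _ hv0'), ?_⟩
      rw [cls_mul (pow_ne_zero _ hv0) (pow_ne_zero _ hv0'), cls_pow hv0, cls_pow hv0', ← h1, ← h1',
        smul_add, ← mul_smul, ← mul_smul, mul_comm N' N]
    | smul r x _ hx =>
      obtain ⟨N, hN, v, hv, hv0, h1⟩ := hx
      refine ⟨N * r.den, Nat.mul_pos hN r.den_pos, v ^ r.num, zpow_mem hv _, zpow_ne_zero _ hv0, ?_⟩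
      rw [cls_zpow hv0, ← h1]
      have e1 : ((N * r.den : ℕ) : ℚ) * r = (r.num : ℚ) * (N : ℚ) := by
        push_cast
        rw [mul_assoc, Rat.den_mul_eq_num, mul_comm]
      calc (N * r.den) • r • x = ((N * r.den : ℕ) : ℚ) • r • x := (Nat.cast_smul_eq_nsmul ℚ _ _).symm
        _ = (((N * r.den : ℕ) : ℚ) * r) • x := by rw [mul_smul]
        _ = ((r.num : ℚ) * (N : ℚ)) • x := by rw [e1]
        _ = (r.num : ℚ) • (N : ℚ) • x := by rw [mul_smul]
        _ = r.num • N • x := by rw [Int.cast_smul_eq_zsmul, Nat.cast_smul_eq_nsmul]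
  obtain ⟨N, hN, v, hv, hv0, h1⟩ := key _ h
  rw [← cls_pow hw] at h1
  have h2 : IsAlgebraic ℚ (w ^ N * v⁻¹) := by
    apply alg_of_cls (mul_ne_zero (pow_ne_zero _ hw) (inv_ne_zero hv0))
    rw [cls_mul (pow_ne_zero _ hw) (inv_ne_zero hv0), cls_inv hv0, h1, add_neg_cancel]
  have h3 : w ^ N * v⁻¹ ∈ E := hE _ (h2.tower_top E)
  have h4 : w ^ N ∈ E := by
    have := mul_mem h3 hv
    rwa [mul_assoc, inv_mul_cancel₀ hv0, mul_one] at this
  apply hE
  have h5 : IsAlgebraic E (w ^ N) := by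
    have := isAlgebraic_algebraMap (R := E) (A := ℂ) ⟨w ^ N, h4⟩
    exact this
  exact h5.of_pow hN

end Pool.Agent.NH26.LR
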