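import Mathlib

/-!
# Transcendence degree of fields generated by algebraically dependent elements
-/

set_option autoImplicit false

open Cardinal IntermediateField

namespace Pool.Agent.NH26.LR

variable {k Ω : Type} [Field k] [Field Ω] [Algebra k Ω]

/-- The algebraic closure in `Ω` of the field generated by `T`. -/
noncomputable def clo (k : Type) {Ω : Type} [Field k] [Field Ω] [Algebra k Ω] (T : Set Ω) :
    IntermediateField k Ω :=
  (algebraicClosure (adjoin k T) Ω).restrictScalars k

theorem mem_clo {T : Set Ω} {x : Ω} : x ∈ clo k T ↔ IsAlgebraic (adjoin k T) x := by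
  unfold clo
  rw [mem_restrictScalars, mem_algebraicClosure_iff]

theorem adjoin_le_clo (T : Set Ω) : adjoin k T ≤ clo k T := by
  intro x hx
  rw [mem_clo]
  exact isAlgebraic_algebraMap (R := adjoin k T) (A := Ω) ⟨x, hx⟩

theorem clo_closed (T : Set Ω) (w : Ω) (hw : IsAlgebraic (clo k T) w) : w ∈ clo k T := by
  rw [mem_clo]
  have : Algebra.IsAlgebraic (adjoin k T) (algebraicClosure (adjoin k T) Ω) := inferInstance
  have hw' : IsAlgebraic (algebraicClosure (adjoin k T) Ω) w := hw
  exact hw'.restrictScalars (adjoin k T)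

theorem alg_val {K : IntermediateField k Ω} {s : Set K} {x : K} :
    IsAlgebraic (Algebra.adjoin k s) x ↔
      IsAlgebraic (Algebra.adjoin k (Subtype.val '' s : Set Ω)) (x : Ω) := by
  have e : (Algebra.adjoin k s).map K.val = Algebra.adjoin k (Subtype.val '' s : Set Ω) :=
    AlgHom.map_adjoin _ _
  rw [← e]
  exact (isAlgebraic_ringHom_iff_of_comp_eq
      ((Algebra.adjoin k s).equivMapOfInjective K.val K.val.injective) K.val K.val.injective rfl).symm

theorem trdeg_clo_le (T : Set Ω) : Algebra.trdeg k (clo k T) ≤ #T := by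
  have hsub : T ⊆ clo k T := fun x hx => adjoin_le_clo T (subset_adjoin k T hx)
  let s : Set (clo k T) := {x | (x : Ω) ∈ T}
  have hs : (Subtype.val '' s : Set Ω) = T := by
    ext x
    constructor
    · rintro ⟨y, hy, rfl⟩; exact hy
    · intro hx; exact ⟨⟨x, hsub hx⟩, hx, rfl⟩
  have hcard : #s ≤ #T :=
    mk_le_of_injective (f := fun x : s => (⟨x.1.1, x.2⟩ : T)) (fun x y h => by
      apply Subtype.ext
      apply Subtype.ext
      exact Subtype.mk.inj h)
  have halg : Algebra.IsAlgebraic (Algebra.adjoin k s) (clo k T) := by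
    constructor
    intro x
    rw [alg_val, hs]
    exact isAlgebraic_adjoin_iff.1 (mem_clo.1 x.2)
  exact (Algebra.IsAlgebraic.trdeg_le_cardinalMk k s).trans hcard

theorem trdeg_mono {K L : IntermediateField k Ω} (h : K ≤ L) :
    Algebra.trdeg k K ≤ Algebra.trdeg k L :=
  trdeg_le_of_injective (inclusion h) (inclusion h).injective

/-- The transcendence degree of `k(S)` is at most the one of `k(A)` plus the number of elements of `T`,
if every algebraically closed field in `Ω` containing `A` and `T` contains `S`. -/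
theorem trdeg_adjoin_le (A T S : Set Ω)
    (hS : ∀ E : IntermediateField k Ω, (∀ w : Ω, IsAlgebraic E w → w ∈ E) → A ∪ T ⊆ E → S ⊆ E) :
    Algebra.trdeg k (adjoin k S) ≤ Algebra.trdeg k (adjoin k A) + #T := by
  obtain ⟨B, hB⟩ := exists_isTranscendenceBasis k (adjoin k A)
  set T' : Set Ω := (Subtype.val '' B) ∪ T with hT'
  have h1 : adjoin k A ≤ clo k T' := by
    intro x hx
    rw [mem_clo, isAlgebraic_adjoin_iff]
    have h2 : IsAlgebraic (Algebra.adjoin k (B : Set (adjoin k A))) (⟨x, hx⟩ : adjoin k A) := by
      have := hB.isAlgebraic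
      rw [Subtype.range_coe] at this
      exact this.isAlgebraic _
    rw [alg_val] at h2
    exact h2.adjoin_of_forall_isAlgebraic (fun y hy => absurd (Or.inl hy.1) hy.2)
  have h3 : A ∪ T ⊆ clo k T' := by
    intro x hx
    rcases hx with hx | hx
    · exact h1 (subset_adjoin k A hx)
    · exact adjoin_le_clo T' (subset_adjoin k T' (Or.inr hx))
  have h4 : adjoin k S ≤ clo k T' := by
    rw [adjoin_le_iff]
    exact hS _ (clo_closed T') h3
  refine (trdeg_mono h4).trans ((trdeg_clo_le T').trans ?_)
  refine (mk_union_le _ _).trans (add_le_add_left ?_ _)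
  rw [mk_image_eq Subtype.val_injective, hB.cardinalMk_eq_trdeg]

end Pool.Agent.NH26.LR
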