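import Pool.Agent.NH26.LR.Rank
import Pool.Agent.NH26.LR.Trd

/-!
# The transcendence degree of the fields generated by Gamma values
-/

set_option autoImplicit false

open Cardinal IntermediateField Module

namespace Pool.Agent.NH26.LR

/-- The transcendence degree of `ℚ(S)` and the multiplicative rank of `S` relative to `A`. -/
theorem trdeg_rank {A : Set ℂ} (hA : ∀ a ∈ A, a ≠ 0) {ι : Type} [Finite ι] (s : ι → ℂ)
    (hs : ∀ i, s i ≠ 0) {S : Set ℂ} (hS : S ⊆ A ∪ Set.range s) (n : ℕ)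
    (hn : finrank ℚ (Submodule.span ℚ (Set.range fun i =>
      (Submodule.span ℚ (cls '' A)).mkQ (cls (s i)))) ≤ n) :
    Algebra.trdeg ℚ (adjoin ℚ S) ≤ Algebra.trdeg ℚ (adjoin ℚ A) + n := by
  classical
  set W := Submodule.span ℚ (cls '' A) with hW
  obtain ⟨K, a, ha, hspan, hli⟩ := exists_linearIndependent' ℚ (fun i => W.mkQ (cls (s i)))
  have : Finite K := Finite.of_injective a ha
  have : Fintype K := Fintype.ofFinite K
  rw [← hspan, finrank_span_eq_card hli] at hn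
  set T : Set ℂ := Set.range (fun k => s (a k)) with hT
  have hTc : #T ≤ n := by
    have h1 : #T ≤ #K := mk_range_le
    have h2 : #K = (Fintype.card K : Cardinal) := mk_fintype K
    rw [h2] at h1
    exact h1.trans (by exact_mod_cast hn)
  have key : ∀ w ∈ S, cls w ∈ Submodule.span ℚ (cls '' (A ∪ T)) := by
    intro w hw
    rw [Set.image_union, Submodule.span_union]
    rcases hS hw with hw | ⟨i, rfl⟩
    · exact Submodule.mem_sup_left (Submodule.subset_span ⟨w, hw, rfl⟩)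
    · have h1 : W.mkQ (cls (s i)) ∈ Submodule.span ℚ (Set.range ((fun i => W.mkQ (cls (s i))) ∘ a)) := by
        rw [hspan]
        exact Submodule.subset_span ⟨i, rfl⟩
      have h2 : Set.range ((fun i => W.mkQ (cls (s i))) ∘ a) = W.mkQ '' (cls '' T) := by
        rw [← Set.image_comp, hT, ← Set.range_comp]
        rfl
      rw [h2, ← Submodule.map_span] at h1
      have h3 : cls (s i) ∈ (Submodule.map W.mkQ (Submodule.span ℚ (cls '' T))).comap W.mkQ := h1
      rw [Submodule.comap_map_mkQ] at h3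
      exact h3
  refine (trdeg_adjoin_le A T S ?_).trans (add_le_add le_rfl hTc)
  intro E hE hAT w hw
  refine mem_of_mem_span hE ?_ hAT ?_ (key w hw)
  · rintro t (ht | ⟨k, rfl⟩)
    · exact hA t ht
    · exact hs _
  · rcases hS hw with hw | ⟨i, rfl⟩
    · exact hA w hw
    · exact hs i

/-- The Gamma values at the primitive fractions with denominator `q`. -/
def gens (q : ℕ) : Set ℂ :=
  {z | ∃ a : ℕ, 1 ≤ a ∧ a ≤ q - 1 ∧ Nat.gcd a q = 1 ∧ z = Complex.Gamma ((a : ℂ) / q)}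

/-- The Gamma values at all fractions with denominator `q`. -/
def gensAll (q : ℕ) : Set ℂ :=
  {z | ∃ a : ℕ, 1 ≤ a ∧ a ≤ q - 1 ∧ z = Complex.Gamma ((a : ℂ) / q)}

theorem not_isI {a q : ℕ} (ha : 1 ≤ a) (haq : a < q) : ¬ IsI ((a : ℚ) / q) := by
  rintro ⟨k, hk⟩
  have hq : (0 : ℚ) < q := by exact_mod_cast (by omega : 0 < q)
  have ha' : (0 : ℚ) < a := by exact_mod_cast ha
  have haq' : (a : ℚ) < q := by exact_mod_cast haq
  have h1 : (0 : ℚ) < k := by rw [← hk]; positivity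
  have h2 : (k : ℚ) < 1 := by rw [← hk, div_lt_one hq]; exact haq'
  have h3 : (0 : ℤ) < k := by exact_mod_cast h1
  have h4 : k < (1 : ℤ) := by exact_mod_cast h2
  omega

theorem gam_ne' {a q : ℕ} (ha : 1 ≤ a) (haq : a < q) : Complex.Gamma ((a : ℂ) / q) ≠ 0 := by
  have := gam_ne (not_isI ha haq)
  push_cast at this
  exact this

theorem gg_eq {a q : ℕ} (ha : 1 ≤ a) (haq : a < q) :
    gg ((a : ℚ) / q) = cls (Complex.Gamma ((a : ℂ) / q)) - (1 / 2 : ℚ) • cls (Real.pi : ℂ) := by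
  unfold gg
  rw [if_neg (not_isI ha haq)]
  push_cast
  rfl

theorem mk_eq {A : Set ℂ} (hA : (Real.pi : ℂ) ∈ A) {a q : ℕ} (ha : 1 ≤ a) (haq : a < q) :
    (Submodule.span ℚ (cls '' A)).mkQ (cls (Complex.Gamma ((a : ℂ) / q))) =
      (Submodule.span ℚ (cls '' A)).mkQ (gg ((a : ℚ) / q)) := by
  rw [gg_eq ha haq, map_sub, map_smul]
  have : (Submodule.span ℚ (cls '' A)).mkQ (cls (Real.pi : ℂ)) = 0 := by
    rw [Submodule.mkQ_apply, Submodule.Quotient.mk_eq_zero]
    exact Submodule.subset_span ⟨_, hA, rfl⟩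
  rw [this, smul_zero, sub_zero]

theorem trdeg_pi : Algebra.trdeg ℚ (adjoin ℚ ({(Real.pi : ℂ)} : Set ℂ)) ≤ 1 := by
  refine (trdeg_mono (adjoin_le_clo _)).trans ((trdeg_clo_le _).trans ?_)
  rw [mk_singleton]

theorem main_F (q : ℕ) (hq : 2 < q) :
    Algebra.trdeg ℚ (adjoin ℚ ({(Real.pi : ℂ)} ∪ gens q)) ≤
      1 + (Nat.card {χ : DirichletCharacter ℂ q // χ.Odd ∧ ¬ Bad χ} : ℕ) := by
  have : NeZero q := ⟨by omega⟩
  have hpos : ∀ a : {a : Fin q // Nat.Coprime a q}, 1 ≤ (a.1 : ℕ) := by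
    rintro ⟨⟨a, ha⟩, hc⟩
    show 1 ≤ a
    rcases Nat.eq_zero_or_pos a with h | h
    · have hc' : Nat.Coprime a q := hc
      rw [h, Nat.coprime_zero_left] at hc'
      omega
    · exact h
  refine (trdeg_rank (A := {(Real.pi : ℂ)}) (by rintro a rfl; exact pi_ne)
    (fun a : {a : Fin q // Nat.Coprime a q} => Complex.Gamma (((a.1 : ℕ) : ℂ) / q))
    (fun a => gam_ne' (hpos a) a.1.2) ?_ _ ?_).trans (add_le_add_left trdeg_pi _)
  · rintro z (hz | ⟨a, h1, h2, h3, rfl⟩)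
    · exact Or.inl hz
    · exact Or.inr ⟨⟨⟨a, by omega⟩, h3⟩, rfl⟩
  · have h1 := rank_prim (od_map gg_isOD
      (Submodule.span ℚ (cls '' {(Real.pi : ℂ)})).mkQ.toAddMonoidHom) q
    have e := funext fun a : {a : Fin q // Nat.Coprime a q} =>
      mk_eq (A := {(Real.pi : ℂ)}) rfl (hpos a) a.1.2
    rw [e]
    exact h1

/-- The Gamma values, indexed by the residues; `1` for the residue `0`. -/
noncomputable def gv (q : ℕ) (a : Fin q) : ℂ :=
  if (a : ℕ) = 0 then 1 else Complex.Gamma (((a : ℕ) : ℂ) / q)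

theorem gv_ne {q : ℕ} (a : Fin q) : gv q a ≠ 0 := by
  unfold gv
  split_ifs with h
  · exact one_ne_zero
  · exact gam_ne' (Nat.pos_of_ne_zero h) a.2

theorem gv_mk {A : Set ℂ} (hA : (Real.pi : ℂ) ∈ A) {q : ℕ} (a : Fin q) :
    (Submodule.span ℚ (cls '' A)).mkQ (cls (gv q a)) =
      (Submodule.span ℚ (cls '' A)).mkQ (gg (((a : ℕ) : ℚ) / q)) := by
  unfold gv
  split_ifs with h
  · rw [h, cls_alg one_ne_zero isAlgebraic_one]
    congr 1
    unfold gg
    rw [if_pos ⟨0, by simp⟩]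
  · exact mk_eq hA (Nat.pos_of_ne_zero h) a.2

theorem main_G (q : ℕ) (hq : 2 < q) :
    Algebra.trdeg ℚ (adjoin ℚ ({(Real.pi : ℂ)} ∪ gensAll q)) ≤
      1 + (Nat.card {χ : DirichletCharacter ℂ q // χ.Odd} : ℕ) := by
  have : NeZero q := ⟨by omega⟩
  refine (trdeg_rank (A := {(Real.pi : ℂ)}) (by rintro a rfl; exact pi_ne) (gv q) gv_ne
    ?_ _ ?_).trans (add_le_add_left trdeg_pi _)
  · rintro z (hz | ⟨a, h1, h2, rfl⟩)
    · exact Or.inl hz
    · refine Or.inr ⟨⟨a, by omega⟩, ?_⟩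
      unfold gv
      rw [if_neg (by show a ≠ 0; omega)]
  · have h1 := rank_all (od_map gg_isOD
      (Submodule.span ℚ (cls '' {(Real.pi : ℂ)})).mkQ.toAddMonoidHom) q
    have e := funext fun a : Fin q => gv_mk (A := {(Real.pi : ℂ)}) rfl a
    rw [e]
    exact h1

theorem main_rel (q : ℕ) (hq : 2 < q) :
    Algebra.trdeg ℚ (adjoin ℚ ({(Real.pi : ℂ)} ∪ gensAll q)) ≤
      Algebra.trdeg ℚ (adjoin ℚ ({(Real.pi : ℂ)} ∪ gens q)) +
        (Nat.card {χ : DirichletCharacter ℂ q // χ.Odd ∧ Bad χ} : ℕ) := by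
  have : NeZero q := ⟨by omega⟩
  have hpi : (Real.pi : ℂ) ∈ ({(Real.pi : ℂ)} ∪ gens q : Set ℂ) := Or.inl rfl
  refine trdeg_rank (A := {(Real.pi : ℂ)} ∪ gens q) ?_ (gv q) gv_ne ?_ _ ?_
  · rintro z (hz | ⟨a, h1, h2, h3, rfl⟩)
    · rw [Set.mem_singleton_iff] at hz
      rw [hz]; exact pi_ne
    · exact gam_ne' h1 (by omega)
  · rintro z (hz | ⟨a, h1, h2, rfl⟩)
    · exact Or.inl (Or.inl hz)
    · refine Or.inr ⟨⟨a, by omega⟩, ?_⟩
      unfold gv
      rw [if_neg (by show a ≠ 0; omega)]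
  · have h1 := rank_rel (od_map gg_isOD
      (Submodule.span ℚ (cls '' ({(Real.pi : ℂ)} ∪ gens q))).mkQ.toAddMonoidHom) q (by
        intro a ha hc
        have ha1 : 1 ≤ a := by
          rcases Nat.eq_zero_or_pos a with h | h
          · rw [h, Nat.coprime_zero_left] at hc
            omega
          · exact h
        show (Submodule.span ℚ (cls '' ({(Real.pi : ℂ)} ∪ gens q))).mkQ (gg ((a : ℚ) / q)) = 0
        rw [← mk_eq hpi ha1 ha, Submodule.mkQ_apply, Submodule.Quotient.mk_eq_zero]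
        exact Submodule.subset_span ⟨_, Or.inr ⟨a, ha1, by omega, hc, rfl⟩, rfl⟩)
    have e := funext fun a : Fin q => gv_mk hpi a
    rw [e]
    exact h1

end Pool.Agent.NH26.LR
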