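import Pool.Agent.NH26.LR.Char

/-!
# The rank of an odd distribution at the fractions with denominator `q`
-/

set_option autoImplicit false

open Finset DirichletCharacter Module

namespace Pool.Agent.NH26.LR

/-- The character has a trivial value at some prime number dividing the level. -/
def Bad {q : ℕ} (χ : DirichletCharacter ℂ q) : Prop :=
  ∃ p : ℕ, p.Prime ∧ p ∣ q ∧ χ.primitiveCharacter (p : ZMod χ.conductor) = 1

theorem E_eq_zero_iff {q : ℕ} [NeZero q] (χ : DirichletCharacter ℂ q) : E χ = 0 ↔ Bad χ := by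
  unfold E Bad
  rw [prod_eq_zero_iff]
  constructor
  · rintro ⟨p, hp, h⟩
    have := Nat.mem_primeFactors.1 hp
    exact ⟨p, this.1, this.2.1, (sub_eq_zero.1 h).symm⟩
  · rintro ⟨p, hp, hd, h⟩
    exact ⟨p, Nat.mem_primeFactors.2 ⟨hp, hd, NeZero.ne q⟩, sub_eq_zero.2 h.symm⟩

theorem finv {h : ℚ → ℂ} {q : ℕ} [NeZero q] {a : ℕ} (ha : a < q) (hc : Nat.Coprime a q) :
    h (a / q) = ∑ χ : DirichletCharacter ℂ q, ((q.totient : ℂ)⁻¹ * χ ((a : ZMod q)⁻¹)) * S h χ := by
  have hu : IsUnit (a : ZMod q) := (ZMod.isUnit_iff_coprime a q).2 hc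
  have hφ : (q.totient : ℂ) ≠ 0 := by
    exact_mod_cast (Nat.totient_pos.2 (Nat.pos_of_ne_zero (NeZero.ne q))).ne'
  have h1 : ∑ χ : DirichletCharacter ℂ q, χ ((a : ZMod q)⁻¹) * S h χ = q.totient * h (a / q) := by
    unfold S
    simp only [mul_sum]
    rw [sum_comm]
    have h2 : ∀ b ∈ range q, ∑ χ : DirichletCharacter ℂ q,
        χ ((a : ZMod q)⁻¹) * (χ (b : ZMod q) * h (b / q)) =
        if b = a then q.totient * h (a / q) else 0 := by
      intro b hb
      rw [mem_range] at hb
      have h3 := sum_char_inv_mul_char_eq ℂ hu (b : ZMod q)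
      have h4 : ∑ χ : DirichletCharacter ℂ q, χ ((a : ZMod q)⁻¹) * (χ (b : ZMod q) * h (b / q)) =
          (∑ χ : DirichletCharacter ℂ q, χ ((a : ZMod q)⁻¹) * χ (b : ZMod q)) * h (b / q) := by
        rw [sum_mul]
        exact sum_congr rfl fun χ _ => by ring
      rw [h4, h3]
      have h5 : (a : ZMod q) = (b : ZMod q) ↔ b = a := by
        rw [ZMod.natCast_eq_natCast_iff']
        rw [Nat.mod_eq_of_lt ha, Nat.mod_eq_of_lt hb]
        exact eq_comm
      by_cases hab : b = a
      · rw [if_pos hab, if_pos (h5.2 hab), hab]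
      · rw [if_neg hab, if_neg (fun h => hab (h5.1 h)), zero_mul]
    rw [sum_congr rfl h2, sum_ite_eq' (range q) a, if_pos (mem_range.2 ha)]
  have h6 : ∑ χ : DirichletCharacter ℂ q, ((q.totient : ℂ)⁻¹ * χ ((a : ZMod q)⁻¹)) * S h χ =
      (q.totient : ℂ)⁻¹ * ∑ χ : DirichletCharacter ℂ q, χ ((a : ZMod q)⁻¹) * S h χ := by
    rw [mul_sum]
    exact sum_congr rfl fun χ _ => by ring
  rw [h6, h1, ← mul_assoc, inv_mul_cancel₀ hφ, one_mul]

theorem T_congr {h : ℚ → ℂ} {m m' : ℕ} (ψ : DirichletCharacter ℂ m) (ψ' : DirichletCharacter ℂ m')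
    (hm : m = m') (hψ : ∀ a : ℤ, ψ (a : ZMod m) = ψ' (a : ZMod m')) : T h m ψ = T h m' ψ' := by
  subst hm
  unfold T
  refine sum_congr rfl fun a _ => ?_
  have := hψ a
  push_cast at this
  rw [this]

theorem P_changeLevel {h : ℚ → ℂ} {d q : ℕ} [NeZero q] (hd : d ∣ q) (χ : DirichletCharacter ℂ d) :
    P h (changeLevel hd χ) = P h χ :=
  T_congr _ _ (conductor_changeLevel χ hd) (fun a => primitiveCharacter_changeLevel_apply hd χ a)

theorem prim_neg_one {q : ℕ} (χ : DirichletCharacter ℂ q) :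
    χ.primitiveCharacter (-1) = χ (-1) := by
  have := primitiveCharacter_apply_of_isCoprime χ (a := -1) (isCoprime_one_left.neg_left)
  push_cast at this
  exact this

theorem P_even {h : ℚ → ℂ} (hh : IsOD h) {q : ℕ} [NeZero q] {χ : DirichletCharacter ℂ q}
    (hχ : χ.Even) : P h χ = 0 := by
  have : NeZero χ.conductor := ⟨conductor_ne_zero χ⟩
  have h1 : χ.primitiveCharacter.Even := by
    unfold DirichletCharacter.Even
    rw [prim_neg_one]
    exact hχ
  rw [← S_even hh h1]
  unfold P T S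
  refine sum_congr rfl fun a _ => ?_
  congr 1
  split_ifs with hc
  · rfl
  · symm
    apply MulChar.map_nonunit
    rw [ZMod.isUnit_iff_coprime]
    exact hc

/-- The coefficients of the values of an odd distribution with respect to the primitive sums. -/
noncomputable def cc (q : ℕ) (a : ℕ) (χ' : DirichletCharacter ℂ q) : ℂ := by
  classical
  exact ∑ χ : DirichletCharacter ℂ (q / Nat.gcd a q),
    if changeLevel (Nat.div_dvd_of_dvd (Nat.gcd_dvd_right a q)) χ = χ' then
      ((q / Nat.gcd a q).totient : ℂ)⁻¹ * χ (((a / Nat.gcd a q : ℕ) : ZMod (q / Nat.gcd a q))⁻¹) * E χ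
    else 0

theorem finv_all {h : ℚ → ℂ} (hh : IsOD h) {q : ℕ} [NeZero q] {a : ℕ} (ha : a < q) :
    h (a / q) = ∑ χ' : DirichletCharacter ℂ q, cc q a χ' * P h χ' := by
  classical
  have hq : 0 < q := Nat.pos_of_ne_zero (NeZero.ne q)
  have hg : 0 < Nat.gcd a q := Nat.gcd_pos_of_pos_right a hq
  have hd0 : 0 < q / Nat.gcd a q := Nat.div_pos (Nat.le_of_dvd hq (Nat.gcd_dvd_right a q)) hg
  have : NeZero (q / Nat.gcd a q) := ⟨hd0.ne'⟩
  have hb : a / Nat.gcd a q < q / Nat.gcd a q :=
    Nat.div_lt_div_of_lt_of_dvd (Nat.gcd_dvd_right a q) ha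
  have hc : Nat.Coprime (a / Nat.gcd a q) (q / Nat.gcd a q) := Nat.coprime_div_gcd_div_gcd hg
  have e1 : (a : ℚ) / q = ((a / Nat.gcd a q : ℕ) : ℚ) / ((q / Nat.gcd a q : ℕ) : ℚ) := by
    have hgq : ((Nat.gcd a q : ℕ) : ℚ) ≠ 0 := by exact_mod_cast hg.ne'
    have hqq : (q : ℚ) ≠ 0 := by exact_mod_cast hq.ne'
    rw [Nat.cast_div (Nat.gcd_dvd_left a q) hgq, Nat.cast_div (Nat.gcd_dvd_right a q) hgq]
    field_simp
  rw [e1, finv (h := h) hb hc]
  unfold cc
  simp only [sum_mul]
  rw [sum_comm]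
  refine sum_congr rfl fun χ _ => ?_
  simp only [ite_mul, zero_mul]
  rw [sum_ite_eq univ, if_pos (mem_univ _), P_changeLevel, S_eq hh]
  ring

/-- A bound for the rank of a family of vectors over `ℚ` by complex linear forms. -/
theorem rank_le {V : Type} [AddCommGroup V] [Module ℚ V] {ι : Type} [Finite ι] (v : ι → V)
    {κ : Type} [Fintype κ] (c : ι → κ → ℂ)
    (H : ∀ l : V →ₗ[ℚ] ℚ, ∃ w : κ → ℂ, ∀ i, ((l (v i) : ℚ) : ℂ) = ∑ k, c i k * w k) :
    finrank ℚ (Submodule.span ℚ (Set.range v)) ≤ Fintype.card κ := by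
  classical
  obtain ⟨K, a, ha, hspan, hli⟩ := exists_linearIndependent' ℚ v
  have : Finite K := Finite.of_injective a ha
  have : Fintype K := Fintype.ofFinite K
  have : Fintype ι := Fintype.ofFinite ι
  rw [← hspan, finrank_span_eq_card hli]
  -- the dual functionals
  have h1 : Function.Injective (Finsupp.linearCombination ℚ (v ∘ a)) := hli
  obtain ⟨π, hπ⟩ := LinearMap.exists_leftInverse_of_injective _ (LinearMap.ker_eq_bot.2 h1)
  have h2 : ∀ k l : K, (π (v (a l))) k = if k = l then 1 else 0 := by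
    intro k l
    have h3 := LinearMap.congr_fun hπ (Finsupp.single l 1)
    simp only [LinearMap.comp_apply, Finsupp.linearCombination_single, one_smul,
      Function.comp_apply, LinearMap.id_apply] at h3
    rw [h3, Finsupp.single_apply]
    simp [eq_comm]
  let lk : K → (V →ₗ[ℚ] ℚ) := fun k => (Finsupp.lapply k).comp π
  choose w hw using fun k => H (lk k)
  -- the vectors `w k` are linearly independent
  have hliw : LinearIndependent ℂ w := by
    rw [Fintype.linearIndependent_iff]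
    intro g hg l
    have h4 : ∑ k, g k * ((lk k (v (a l)) : ℚ) : ℂ) = 0 := by
      have : ∀ k, g k * ((lk k (v (a l)) : ℚ) : ℂ) = ∑ j, c (a l) j * (g k * w k j) := by
        intro k
        rw [hw k (a l), mul_sum]
        exact sum_congr rfl fun j _ => by ring
      rw [sum_congr rfl fun k _ => this k, sum_comm]
      refine sum_eq_zero fun j _ => ?_
      rw [← mul_sum]
      have := congrFun hg j
      simp only [Finset.sum_apply, Pi.smul_apply, smul_eq_mul, Pi.zero_apply] at this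
      rw [this, mul_zero]
    have h5 : ∀ k, g k * ((lk k (v (a l)) : ℚ) : ℂ) = if k = l then g l else 0 := by
      intro k
      have : lk k (v (a l)) = if k = l then 1 else 0 := h2 k l
      rw [this]
      by_cases hkl : k = l
      · rw [if_pos hkl, if_pos hkl, hkl]; simp
      · rw [if_neg hkl, if_neg hkl]; simp
    rw [sum_congr rfl fun k _ => h5 k] at h4
    simpa using h4
  have := hliw.fintype_card_le_finrank
  rwa [finrank_fintype_fun_eq_card] at this

/-- The values of an odd distribution under a linear form. -/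
theorem od_comp {V : Type*} [AddCommGroup V] [Module ℚ V] {g : ℚ → V} (hg : IsOD g)
    (l : V →ₗ[ℚ] ℚ) : IsOD (fun x => ((l (g x) : ℚ) : ℂ)) := by
  refine ⟨fun x => by rw [hg.per], fun x => by rw [hg.odd, map_neg]; push_cast; rfl, ?_⟩
  intro n hn x
  rw [← hg.dist n hn x, map_sum]
  push_cast
  rfl

theorem od_map {V V' : Type*} [AddCommGroup V] [AddCommGroup V'] {g : ℚ → V} (hg : IsOD g)
    (l : V →+ V') : IsOD (fun x => l (g x)) := by
  refine ⟨fun x => by rw [hg.per], fun x => by rw [hg.odd, map_neg], ?_⟩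
  intro n hn x
  rw [← hg.dist n hn x, map_sum]

variable {V : Type} [AddCommGroup V] [Module ℚ V] {g : ℚ → V}

/-- The rank of the values at the primitive fractions. -/
theorem rank_prim (hg : IsOD g) (q : ℕ) [NeZero q] :
    finrank ℚ (Submodule.span ℚ (Set.range fun a : {a : Fin q // Nat.Coprime a q} =>
      g ((a.1 : ℕ) / q))) ≤
      Nat.card {χ : DirichletCharacter ℂ q // χ.Odd ∧ ¬ Bad χ} := by
  classical
  have : Fintype {χ : DirichletCharacter ℂ q // χ.Odd ∧ ¬ Bad χ} := Fintype.ofFinite _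
  rw [Nat.card_eq_fintype_card]
  refine rank_le _ (fun a χ => ((q.totient : ℂ)⁻¹ * χ.1 (((a.1 : ℕ) : ZMod q)⁻¹))) ?_
  intro l
  have hh := od_comp hg l
  refine ⟨fun χ => S (fun x => ((l (g x) : ℚ) : ℂ)) χ.1, fun a => ?_⟩
  have h1 := finv (h := fun x => ((l (g x) : ℚ) : ℂ)) a.1.2 a.2
  refine h1.trans ?_
  have h2 : ∀ χ : DirichletCharacter ℂ q, ¬ (χ.Odd ∧ ¬ Bad χ) →
      S (fun x => ((l (g x) : ℚ) : ℂ)) χ = 0 := by
    intro χ hχ
    rcases χ.even_or_odd with he | ho
    · exact S_even hh he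
    · have hb : Bad χ := by
        by_contra hb
        exact hχ ⟨ho, hb⟩
      rw [S_eq hh, (E_eq_zero_iff χ).2 hb, zero_mul]
  rw [← Finset.sum_subtype (univ.filter fun χ : DirichletCharacter ℂ q => χ.Odd ∧ ¬ Bad χ)
    (p := fun χ : DirichletCharacter ℂ q => χ.Odd ∧ ¬ Bad χ) (by simp)
    (fun χ => (q.totient : ℂ)⁻¹ * χ (((a.1 : ℕ) : ZMod q)⁻¹) * S (fun x => ((l (g x) : ℚ) : ℂ)) χ)]
  symm
  refine sum_subset (filter_subset _ _) fun χ _ hχ => ?_
  rw [h2 χ (fun h => hχ (mem_filter.2 ⟨mem_univ _, h⟩)), mul_zero]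

/-- The rank of the values at all fractions. -/
theorem rank_all (hg : IsOD g) (q : ℕ) [NeZero q] :
    finrank ℚ (Submodule.span ℚ (Set.range fun a : Fin q => g ((a : ℕ) / q))) ≤
      Nat.card {χ : DirichletCharacter ℂ q // χ.Odd} := by
  classical
  have : Fintype {χ : DirichletCharacter ℂ q // χ.Odd} := Fintype.ofFinite _
  rw [Nat.card_eq_fintype_card]
  refine rank_le _ (fun a χ => cc q a χ.1) ?_
  intro l
  have hh := od_comp hg l
  refine ⟨fun χ => P (fun x => ((l (g x) : ℚ) : ℂ)) χ.1, fun a => ?_⟩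
  have h1 := finv_all hh a.2
  refine h1.trans ?_
  rw [← Finset.sum_subtype (univ.filter fun χ : DirichletCharacter ℂ q => χ.Odd)
    (p := fun χ : DirichletCharacter ℂ q => χ.Odd) (by simp)
    (fun χ => cc q a χ * P (fun x => ((l (g x) : ℚ) : ℂ)) χ)]
  symm
  refine sum_subset (filter_subset _ _) fun χ _ hχ => ?_
  rcases χ.even_or_odd with he | ho
  · rw [P_even hh he, mul_zero]
  · exact absurd (mem_filter.2 ⟨mem_univ _, ho⟩) hχ

/-- The rank of the values at all fractions, if the values at the primitive fractions are zero. -/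
theorem rank_rel (hg : IsOD g) (q : ℕ) [NeZero q]
    (h0 : ∀ a : ℕ, a < q → Nat.Coprime a q → g (a / q) = 0) :
    finrank ℚ (Submodule.span ℚ (Set.range fun a : Fin q => g ((a : ℕ) / q))) ≤
      Nat.card {χ : DirichletCharacter ℂ q // χ.Odd ∧ Bad χ} := by
  classical
  have : Fintype {χ : DirichletCharacter ℂ q // χ.Odd ∧ Bad χ} := Fintype.ofFinite _
  rw [Nat.card_eq_fintype_card]
  refine rank_le _ (fun a χ => cc q a χ.1) ?_
  intro l
  have hh := od_comp hg l
  refine ⟨fun χ => P (fun x => ((l (g x) : ℚ) : ℂ)) χ.1, fun a => ?_⟩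
  have h1 := finv_all hh a.2
  refine h1.trans ?_
  rw [← Finset.sum_subtype (univ.filter fun χ : DirichletCharacter ℂ q => χ.Odd ∧ Bad χ)
    (p := fun χ : DirichletCharacter ℂ q => χ.Odd ∧ Bad χ) (by simp)
    (fun χ => cc q a χ * P (fun x => ((l (g x) : ℚ) : ℂ)) χ)]
  symm
  refine sum_subset (filter_subset _ _) fun χ _ hχ => ?_
  rcases χ.even_or_odd with he | ho
  · rw [P_even hh he, mul_zero]
  · have hb : ¬ Bad χ := fun hb => hχ (mem_filter.2 ⟨mem_univ _, ho, hb⟩)
    have hS : S (fun x => ((l (g x) : ℚ) : ℂ)) χ = 0 := by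
      unfold S
      refine sum_eq_zero fun b hb' => ?_
      rw [mem_range] at hb'
      by_cases hc : Nat.Coprime b q
      · show χ (b : ZMod q) * ((l (g (b / q)) : ℚ) : ℂ) = 0
        rw [h0 b hb' hc, map_zero]
        simp
      · rw [χ.map_nonunit (by rw [ZMod.isUnit_iff_coprime]; exact hc), zero_mul]
    rw [S_eq hh] at hS
    rw [(mul_eq_zero.1 hS).resolve_left (fun h => hb ((E_eq_zero_iff χ).1 h)), mul_zero]

/-- The number of odd characters. -/
theorem two_mul_card_odd (q : ℕ) (hq : 2 < q) :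
    2 * Nat.card {χ : DirichletCharacter ℂ q // χ.Odd} = q.totient := by
  classical
  have : NeZero q := ⟨by omega⟩
  have h1 : (-1 : ZMod q) ≠ 1 := by
    intro h
    have h2 : ((2 : ℕ) : ZMod q) = 0 := by
      push_cast
      have : (2 : ZMod q) = 1 + 1 := by norm_num
      rw [this]
      nth_rewrite 1 [← h]
      ring
    rw [ZMod.natCast_eq_zero_iff] at h2
    exact absurd (Nat.le_of_dvd (by norm_num) h2) (by omega)
  have h2 := sum_characters_eq_zero ℂ h1
  have h3 := card_eq_totient_of_hasEnoughRootsOfUnity ℂ q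
  have h4 : ∀ χ : DirichletCharacter ℂ q, χ (-1) = 1 - 2 * (if χ.Odd then 1 else 0) := by
    intro χ
    rcases χ.even_or_odd with he | ho
    · have : ¬ χ.Odd := fun h => not_even_and_odd χ ⟨he, h⟩
      rw [if_neg this, mul_zero, sub_zero]
      exact he
    · rw [if_pos ho]
      have : χ (-1) = -1 := ho
      rw [this]; norm_num
  rw [sum_congr rfl fun χ _ => h4 χ, sum_sub_distrib, ← mul_sum, sum_boole] at h2
  simp only [sum_const, card_univ, nsmul_eq_mul, mul_one] at h2
  have h5 : Nat.card {χ : DirichletCharacter ℂ q // χ.Odd} =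
      (univ.filter fun χ : DirichletCharacter ℂ q => χ.Odd).card := by
    rw [Nat.card_eq_fintype_card, Fintype.card_subtype]
  rw [h5]
  rw [Nat.card_eq_fintype_card] at h3
  rw [h3] at h2
  have h6 : (2 : ℂ) * ((univ.filter fun χ : DirichletCharacter ℂ q => χ.Odd).card : ℂ) =
      (q.totient : ℂ) := by linear_combination -h2
  exact_mod_cast h6

/-- The number of odd characters that are not bad. -/
theorem card_good (q : ℕ) [NeZero q] :
    Nat.card {χ : DirichletCharacter ℂ q // χ.Odd ∧ ¬ Bad χ} +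
      Nat.card {χ : DirichletCharacter ℂ q // χ.Odd ∧ Bad χ} =
      Nat.card {χ : DirichletCharacter ℂ q // χ.Odd} := by
  classical
  rw [Nat.card_eq_fintype_card, Nat.card_eq_fintype_card, Nat.card_eq_fintype_card,
    Fintype.card_subtype, Fintype.card_subtype, Fintype.card_subtype, add_comm,
    ← filter_filter, ← filter_filter, card_filter_add_card_filter_not]

end Pool.Agent.NH26.LR
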